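import Pool.Agent.Helper44.HD.BasicH

/-!
# Project HD (MP_e5f486_ag): realizations exist
-/

set_option autoImplicit false

namespace Pool.Agent.Helper44.HD

theorem exists_rl (E N : Type) [Ring E] [AddCommGroup N] [Module E N] (h1 : Module.Finite E N)
    (h2 : Module.Projective E N) :
    ∃ (m : ℕ) (i : N →ₗ[E] (Fin m → E)) (p : (Fin m → E) →ₗ[E] N), ∀ x, p (i x) = x := by
  obtain ⟨m, p, hp⟩ := Module.Finite.exists_fin' E N
  obtain ⟨i, hi⟩ := Module.projective_lifting_property p LinearMap.id hp
  exact ⟨m, i, p, fun x => LinearMap.congr_fun hi x⟩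

end Pool.Agent.Helper44.HD
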