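import Pool.Agent.Helper44.HD.Main
import Pool.Agent.Helper1.HD.TR
import Pool.Agent.Helper48.HD.IN
import Pool.Agent.Helper57.HD.EQ
import Pool.Agent.Helper70.HD.AD
import Pool.Agent.Helper32.HD.SE
import Pool.Agent.Helper35.HD.TT
import Pool.Agent.Helper15.HD.BS
import Pool.Agent.Helper13.HD.SU
import Pool.Agent.Helper35.HD.QS
import Pool.Agent.Helper35.HD.QF
import Pool.Agent.Helper35.HD.QN
import Pool.Agent.Helper64.HD.QE
import Pool.Agent.Helper13.HD.QP
import Pool.Agent.Helper25.HD.QH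
import Pool.Agent.Helper48.HD.QB
import Pool.Agent.Helper8.HD.QM
import Pool.Agent.Helper39.HD.QD
import Pool.Agent.Helper66.HD.QZ
import Pool.Agent.Helper64.HD.PJ
import Pool.Agent.Helper74.HD.AT
import Pool.Agent.Helper39.HD.GB
import Pool.Agent.Helper98.HD.QG
import Pool.Agent.Helper41.HD.GA
import Pool.Agent.Helper93.HD.CA

/-!
# Project HD (MP_e5f486_ag): all packets together
-/

set_option autoImplicit false

namespace Pool.Agent.Helper44.HD

theorem tr_all : StmtTR := Pool.Agent.Helper1.HD.tr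

theorem in_all : StmtIN := Pool.Agent.Helper48.HD.in_

theorem eq_all : StmtEQ := Pool.Agent.Helper57.HD.eq tr_all in_all

theorem ad_all : StmtAD := Pool.Agent.Helper70.HD.ad tr_all in_all

theorem se_all : StmtSE := Pool.Agent.Helper32.HD.se

theorem tt_all : StmtTT := Pool.Agent.Helper35.HD.tt ad_all eq_all

theorem bs_all : StmtBS := Pool.Agent.Helper15.HD.bs tr_all se_all

theorem su_all : StmtSU := Pool.Agent.Helper13.HD.su tt_all bs_all

theorem qg_all : StmtQG := Pool.Agent.Helper98.HD.qg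

theorem qd_all : StmtQD :=
  Pool.Agent.Helper39.HD.qd su_all tt_all Pool.Agent.Helper35.HD.qs Pool.Agent.Helper64.HD.qe qg_all
    Pool.Agent.Helper35.HD.qf Pool.Agent.Helper35.HD.qn Pool.Agent.Helper13.HD.qp
    Pool.Agent.Helper25.HD.qh

theorem qz_all : StmtQZ :=
  Pool.Agent.Helper66.HD.qz Pool.Agent.Helper48.HD.qb Pool.Agent.Helper8.HD.qm
    Pool.Agent.Helper13.HD.qp qd_all

theorem pj_all : StmtPJ := Pool.Agent.Helper64.HD.pj

theorem at_all : StmtAT := Pool.Agent.Helper74.HD.at_

theorem ga_all : StmtGA := Pool.Agent.Helper41.HD.ga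

theorem gb_all : StmtGB := Pool.Agent.Helper39.HD.gb ga_all

theorem ca_all : StmtCA := Pool.Agent.Helper93.HD.ca qz_all du pj_all

end Pool.Agent.Helper44.HD
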