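import Pool.Agent.Helper44.HD.GoalsC

/-!
# Project HD (MP_e5f486_ag): packet BC (the boundary preserves the composable words)
-/

set_option autoImplicit false

open Finset

namespace Pool.Agent.Helper44.HD

section

variable {k G : Type} [Field k] [Group G] {D : RedGroup k G} {R : Type} [Ring R] [Algebra k R]

theorem em_single (x y : Ob D) (A : Matrix (Fin x.1) (Fin y.1) R) (j : Fin y.1) (r : R) :
    em x y A (Finsupp.single (⟨y, j⟩ : Ix D) r) =
      ∑ i, Finsupp.single (⟨x, i⟩ : Ix D) (A i j * r) := by
  simp only [em, LinearMap.coe_mk, AddHom.coe_mk, LinearMap.sum_apply, LinearMap.comp_apply,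
    Finsupp.lapply_apply, LinearMap.mulLeft_apply, Finsupp.lsingle_apply]
  refine sum_congr rfl fun i _ => ?_
  rw [sum_eq_single j]
  · rw [Finsupp.single_eq_same]
  · intro l _ hl
    rw [Finsupp.single_eq_of_ne, mul_zero, Finsupp.single_zero]
    intro h
    apply hl
    simpa using h
  · intro h
    exact absurd (mem_univ j) h

theorem em_single_ne (x y z : Ob D) (A : Matrix (Fin x.1) (Fin y.1) R) (h : z ≠ y) (j : Fin z.1)
    (r : R) : em x y A (Finsupp.single (⟨z, j⟩ : Ix D) r) = 0 := by
  simp only [em, LinearMap.coe_mk, AddHom.coe_mk, LinearMap.sum_apply, LinearMap.comp_apply,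
    Finsupp.lapply_apply, LinearMap.mulLeft_apply, Finsupp.lsingle_apply]
  refine sum_eq_zero fun i _ => sum_eq_zero fun l _ => ?_
  rw [Finsupp.single_eq_of_ne, mul_zero, Finsupp.single_zero]
  intro h'
  apply h
  exact (congrArg Sigma.fst h').symm

theorem em_mul (x y z : Ob D) (A : Matrix (Fin x.1) (Fin y.1) R)
    (B : Matrix (Fin y.1) (Fin z.1) R) : em x y A * em y z B = em x z (A * B) := by
  apply Finsupp.lhom_ext
  rintro ⟨u, j⟩ r
  rw [Module.End.mul_apply]
  by_cases h : u = z
  · subst h
    rw [em_single, em_single, map_sum]
    simp only [em_single, Matrix.mul_apply, sum_mul]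
    rw [sum_comm]
    refine sum_congr rfl fun i _ => ?_
    rw [← Finsupp.single_finsetSum]
    congr 1
    exact sum_congr rfl fun l _ => (mul_assoc _ _ _).symm
  · rw [em_single_ne _ _ _ _ h, em_single_ne _ _ _ _ h, map_zero]

variable [MulSemiringAction G R] [SMulCommClass G k R]

theorem hom_mul {x y z : Ob D} {a b : Amb D R} (ha : a ∈ hom R x y) (hb : b ∈ hom R y z) :
    a * b ∈ hom R x z := by
  obtain ⟨A, hA, rfl⟩ := ha
  obtain ⟨B, hB, rfl⟩ := hb
  exact ⟨A * B, Hm_mul hA hB, (em_mul x y z A B).symm⟩

end

theorem bcy : StmtBC := by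
  intro k G R _ _ _ _ _ _ D q z hz
  unfold Cyc at hz
  induction hz using Submodule.span_induction with
  | zero =>
    rw [map_zero]
    exact Submodule.zero_mem _
  | add x y _ _ hx hy =>
    rw [map_add]
    exact Submodule.add_mem _ hx hy
  | smul c x _ hx =>
    rw [map_smul]
    exact Submodule.smul_mem _ _ hx
  | mem z hz =>
    obtain ⟨x, a, h1, h2, rfl⟩ := hz
    rw [bc_tp]
    unfold bch
    refine Submodule.add_mem _ (Submodule.sum_mem _ fun j hj => Submodule.smul_mem _ _ ?_)
      (Submodule.smul_mem _ _ ?_)
    · have hj' : j < q + 1 := mem_range.1 hj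
      refine Submodule.subset_span ⟨fun i => if i ≤ j then x i else x (i + 1), ct j a, ?_, ?_, rfl⟩
      · intro i hi
        simp only [ct]
        rcases lt_trichotomy i j with h | h | h
        · rw [if_pos h, if_pos (by omega), if_pos (by omega)]
          exact h1 i (by omega)
        · subst h
          rw [if_neg (lt_irrefl i), if_pos rfl, if_pos le_rfl, if_neg (by omega)]
          exact hom_mul (h1 i (by omega)) (h1 (i + 1) (by omega))
        · rw [if_neg (by omega), if_neg (by omega), if_neg (by omega), if_neg (by omega)]
          exact h1 (i + 1) (by omega)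
      · simp only
        rw [if_neg (by omega), if_pos (by omega)]
        exact h2
    · refine Submodule.subset_span
        ⟨fun i => if i = 0 then x (q + 1) else if i = q + 1 then x (q + 1) else x i,
          cy (q + 1) a, ?_, ?_, rfl⟩
      · intro i hi
        simp only [cy]
        by_cases h : i = 0
        · subst h
          rw [if_pos rfl, if_pos rfl, if_neg (by omega)]
          have h3 := h1 (q + 1) le_rfl
          rw [h2] at h3
          have h4 := hom_mul h3 (h1 0 (by omega))
          by_cases hq : q = 0
          · subst hq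
            rw [if_pos rfl]
            exact h4
          · rw [if_neg (by omega)]
            exact h4
        · rw [if_neg h, if_neg h, if_neg (by omega), if_neg (by omega)]
          by_cases hq : i = q
          · subst hq
            rw [if_pos rfl]
            exact h1 i (by omega)
          · rw [if_neg (by omega)]
            exact h1 i (by omega)
      · simp

end Pool.Agent.Helper44.HD
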