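import Pool.Agent.Helper44.HD.DefsH

/-!
# Project HD (MP_e5f486_ag): basic lemmas on cochains
-/

set_option autoImplicit false
set_option linter.unusedSectionVars false

open Finset

namespace Pool.Agent.Helper44.HD

section basic

variable {k A B C : Type} [Field k] [AddCommGroup A] [Module k A] [AddCommGroup B] [Module k B]
  [AddCommGroup C] [Module k C]

theorem Coch.zero' (n : ℕ) : Coch k n (fun _ : ℕ → A => (0 : C)) :=
  ⟨fun _ _ _ => rfl, fun _ _ _ _ _ => (add_zero 0).symm, fun _ _ c _ _ => (smul_zero c).symm⟩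

theorem Coch.addc {n : ℕ} {φ ψ : (ℕ → A) → C} (h : Coch k n φ) (h' : Coch k n ψ) :
    Coch k n (fun x => φ x + ψ x) := by
  refine ⟨fun x y e => ?_, fun x i a b hi => ?_, fun x i c a hi => ?_⟩
  · rw [h.dep x y e, h'.dep x y e]
  · rw [h.add x i a b hi, h'.add x i a b hi]
    abel
  · rw [h.smul x i c a hi, h'.smul x i c a hi, smul_add]

theorem Coch.smulc {n : ℕ} {φ : (ℕ → A) → C} (h : Coch k n φ) (c : k) :
    Coch k n (fun x => c • φ x) := by
  refine ⟨fun x y e => ?_, fun x i a b hi => ?_, fun x i d a hi => ?_⟩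
  · rw [h.dep x y e]
  · rw [h.add x i a b hi, smul_add]
  · rw [h.smul x i d a hi, smul_comm]

theorem Coch.mulc {n : ℕ} {φ : (ℕ → A) → k} (h : Coch k n φ) (c : k) :
    Coch k n (fun x => c * φ x) := h.smulc c

theorem Coch.negc {n : ℕ} {φ : (ℕ → A) → C} (h : Coch k n φ) : Coch k n (fun x => -φ x) := by
  have := h.smulc (-1 : k)
  simpa using this

theorem Coch.subc {n : ℕ} {φ ψ : (ℕ → A) → C} (h : Coch k n φ) (h' : Coch k n ψ) :
    Coch k n (fun x => φ x - ψ x) := by
  have := h.addc h'.negc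
  simpa [sub_eq_add_neg] using this

theorem Coch.sumc {ι : Type} {n : ℕ} (s : Finset ι) (φ : ι → (ℕ → A) → C)
    (h : ∀ i ∈ s, Coch k n (φ i)) : Coch k n (fun x => ∑ i ∈ s, φ i x) := by
  classical
  induction s using Finset.induction_on with
  | empty => simpa using Coch.zero' (k := k) (A := A) (C := C) n
  | insert a s ha ih =>
    have h1 := (h a (mem_insert_self a s)).addc (ih fun i hi => h i (mem_insert_of_mem hi))
    simpa [sum_insert ha] using h1

/-- composition with a linear map on the outside -/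
theorem Coch.out {D : Type} [AddCommGroup D] [Module k D] {n : ℕ} {φ : (ℕ → A) → C}
    (h : Coch k n φ) (l : C →ₗ[k] D) : Coch k n (fun x => l (φ x)) := by
  refine ⟨fun x y e => ?_, fun x i a b hi => ?_, fun x i c a hi => ?_⟩
  · rw [h.dep x y e]
  · rw [h.add x i a b hi, map_add]
  · rw [h.smul x i c a hi, map_smul]

/-- GENERAL SUBSTITUTION: the variable `x j` (`j ≤ n`) enters only the entry `τ j` of `s x`, and this
entry is linear in it.  (Two variables may enter the same entry.) -/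
theorem Coch.subst {n m : ℕ} {φ : (ℕ → B) → C} (h : Coch k m φ) (s : (ℕ → A) → ℕ → B)
    (τ : ℕ → ℕ) (hτ : ∀ j, j ≤ n → τ j ≤ m)
    (hdep : ∀ x y : ℕ → A, (∀ i, i ≤ n → x i = y i) → ∀ i, i ≤ m → s x i = s y i)
    (hne : ∀ (x : ℕ → A) (j : ℕ) (a b : A), j ≤ n → ∀ i, i ≤ m → i ≠ τ j →
      s (Function.update x j a) i = s (Function.update x j b) i)
    (hadd : ∀ (x : ℕ → A) (j : ℕ) (a b : A), j ≤ n → s (Function.update x j (a + b)) (τ j) =
      s (Function.update x j a) (τ j) + s (Function.update x j b) (τ j))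
    (hsmul : ∀ (x : ℕ → A) (j : ℕ) (c : k) (a : A), j ≤ n →
      s (Function.update x j (c • a)) (τ j) = c • s (Function.update x j a) (τ j)) :
    Coch k n (fun x => φ (s x)) := by
  have key : ∀ (x : ℕ → A) (j : ℕ) (a b : A), j ≤ n → φ (s (Function.update x j b)) =
      φ (Function.update (s (Function.update x j a)) (τ j) (s (Function.update x j b) (τ j))) := by
    intro x j a b hj
    refine h.dep _ _ fun i hi => ?_
    by_cases hij : i = τ j
    · subst hij
      simp
    · rw [Function.update_of_ne hij]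
      exact hne x j b a hj i hi hij
  refine ⟨fun x y e => ?_, fun x i a b hi => ?_, fun x i c a hi => ?_⟩
  · exact h.dep _ _ (hdep x y e)
  · rw [key x i a (a + b) hi, hadd x i a b hi, h.add _ _ _ _ (hτ i hi),
      ← key x i a b hi, ← key x i a a hi]
  · rw [key x i a (c • a) hi, hsmul x i c a hi, h.smul _ _ _ _ (hτ i hi), ← key x i a a hi]

/-- substitution of linear maps in the variables -/
theorem Coch.comp {n : ℕ} {φ : (ℕ → B) → C} (h : Coch k n φ) (f : ℕ → A → B)
    (hadd : ∀ i a b, f i (a + b) = f i a + f i b)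
    (hsmul : ∀ i (c : k) a, f i (c • a) = c • f i a) :
    Coch k n (fun x : ℕ → A => φ fun i => f i (x i)) := by
  refine h.subst (fun x i => f i (x i)) id (fun j hj => hj) ?_ ?_ ?_ ?_
  · intro x y e i hi
    simp only [e i hi]
  · intro x j a b _ i _ hij
    have hij : i ≠ j := hij
    simp only [Function.update_of_ne hij]
  · intro x j a b _
    simp [hadd]
  · intro x j c a _
    simp [hsmul]

/-- a cochain vanishes if one of its entries is zero -/
theorem Coch.zero_entry {n : ℕ} {φ : (ℕ → A) → C} (h : Coch k n φ) (x : ℕ → A) (i : ℕ)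
    (hi : i ≤ n) (h0 : x i = 0) : φ x = 0 := by
  have h1 := h.smul x i 0 0 hi
  rw [zero_smul, zero_smul] at h1
  rwa [← h0, Function.update_eq_self] at h1

theorem Coch.update_sum {ι : Type} {n : ℕ} {φ : (ℕ → A) → C} (h : Coch k n φ) (x : ℕ → A) (i : ℕ)
    (hi : i ≤ n) (s : Finset ι) (a : ι → A) :
    φ (Function.update x i (∑ j ∈ s, a j)) = ∑ j ∈ s, φ (Function.update x i (a j)) := by
  classical
  induction s using Finset.induction_on with
  | empty =>
    rw [sum_empty, sum_empty]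
    exact h.zero_entry _ i hi (by simp)
  | insert a s ha ih => rw [sum_insert ha, sum_insert ha, h.add _ _ _ _ hi, ih]

end basic

section dl

variable {k A B : Type} [Field k]

theorem dl_add [Mul A] (n : ℕ) (φ ψ : (ℕ → A) → k) (x : ℕ → A) :
    dl n (fun x => φ x + ψ x) x = dl n φ x + dl n ψ x := by
  simp only [dl, mul_add, sum_add_distrib]
  ring

theorem dl_mul [Mul A] (n : ℕ) (c : k) (φ : (ℕ → A) → k) (x : ℕ → A) :
    dl n (fun x => c * φ x) x = c * dl n φ x := by
  simp only [dl, mul_add, mul_sum]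
  congr 1
  · exact sum_congr rfl fun j _ => by ring
  · ring

theorem dl_neg [Mul A] (n : ℕ) (φ : (ℕ → A) → k) (x : ℕ → A) :
    dl n (fun x => -φ x) x = -dl n φ x := by
  have := dl_mul n (-1) φ x
  simpa using this

theorem dl_sub [Mul A] (n : ℕ) (φ ψ : (ℕ → A) → k) (x : ℕ → A) :
    dl n (fun x => φ x - ψ x) x = dl n φ x - dl n ψ x := by
  simp only [sub_eq_add_neg, dl_add, dl_neg]

theorem dl_zero [Mul A] (n : ℕ) (x : ℕ → A) : dl n (fun _ : ℕ → A => (0 : k)) x = 0 := by
  simp [dl]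

theorem dl_sum {ι : Type} [Mul A] (n : ℕ) (s : Finset ι) (φ : ι → (ℕ → A) → k) (x : ℕ → A) :
    dl n (fun x => ∑ i ∈ s, φ i x) x = ∑ i ∈ s, dl n (φ i) x := by
  classical
  induction s using Finset.induction_on with
  | empty => simpa using dl_zero n x
  | insert a s ha ih =>
    simp only [sum_insert ha]
    rw [dl_add, ih]

/-- pullback along a multiplicative map -/
theorem dl_comp [Mul A] [Mul B] (f : A → B) (hf : ∀ a b, f (a * b) = f a * f b) (n : ℕ)
    (φ : (ℕ → B) → k) (x : ℕ → A) :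
    dl n (fun x => φ fun i => f (x i)) x = dl n φ fun i => f (x i) := by
  have h1 : ∀ j, (fun i => f (ct j x i)) = ct j fun i => f (x i) := by
    intro j
    funext i
    simp only [ct]
    split_ifs <;> simp [hf]
  have h2 : ∀ m, (fun i => f (cy m x i)) = cy m fun i => f (x i) := by
    intro m
    funext i
    simp only [cy]
    split_ifs <;> simp [hf]
  simp only [dl, h1, h2]

end dl

section cob

variable {k A B : Type} [Field k] [Ring A] [Algebra k A] [Ring B] [Algebra k B]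

theorem Cob.zero' (n : ℕ) : Cob n (fun _ : ℕ → A => (0 : k)) :=
  ⟨fun _ => 0, Coch.zero' n, fun x => (dl_zero n x).symm⟩

theorem Cob.congr {n : ℕ} {φ ψ : (ℕ → A) → k} (h : Cob n φ) (e : ∀ x, ψ x = φ x) : Cob n ψ := by
  obtain ⟨χ, h1, h2⟩ := h
  exact ⟨χ, h1, fun x => (e x).trans (h2 x)⟩

theorem Cob.addc {n : ℕ} {φ ψ : (ℕ → A) → k} (h : Cob n φ) (h' : Cob n ψ) :
    Cob n (fun x => φ x + ψ x) := by
  obtain ⟨χ, h1, h2⟩ := h
  obtain ⟨χ', h1', h2'⟩ := h'
  exact ⟨_, h1.addc h1', fun x => by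
    change φ x + ψ x = _
    rw [dl_add, h2, h2']⟩

theorem Cob.mulc {n : ℕ} {φ : (ℕ → A) → k} (h : Cob n φ) (c : k) : Cob n (fun x => c * φ x) := by
  obtain ⟨χ, h1, h2⟩ := h
  exact ⟨_, h1.mulc c, fun x => by
    change c * φ x = _
    rw [dl_mul, h2]⟩

theorem Cob.negc {n : ℕ} {φ : (ℕ → A) → k} (h : Cob n φ) : Cob n (fun x => -φ x) := by
  obtain ⟨χ, h1, h2⟩ := h
  exact ⟨_, h1.negc, fun x => by
    change -φ x = _
    rw [dl_neg, h2]⟩

theorem Cob.subc {n : ℕ} {φ ψ : (ℕ → A) → k} (h : Cob n φ) (h' : Cob n ψ) :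
    Cob n (fun x => φ x - ψ x) := by
  obtain ⟨χ, h1, h2⟩ := h
  obtain ⟨χ', h1', h2'⟩ := h'
  exact ⟨_, h1.subc h1', fun x => by
    change φ x - ψ x = _
    rw [dl_sub, h2, h2']⟩

theorem Cob.sumc {ι : Type} {n : ℕ} (s : Finset ι) (φ : ι → (ℕ → A) → k)
    (h : ∀ i ∈ s, Cob n (φ i)) : Cob n (fun x => ∑ i ∈ s, φ i x) := by
  classical
  induction s using Finset.induction_on with
  | empty => simpa using Cob.zero' (k := k) (A := A) n
  | insert a s ha ih =>
    have h1 := (h a (mem_insert_self a s)).addc (ih fun i hi => h i (mem_insert_of_mem hi))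
    simpa [sum_insert ha] using h1

/-- pullback of coboundaries along multiplicative linear maps (not nec. unital) -/
theorem Cob.comp {n : ℕ} {φ : (ℕ → B) → k} (h : Cob n φ) (f : A → B)
    (hmul : ∀ a b, f (a * b) = f a * f b) (hadd : ∀ a b, f (a + b) = f a + f b)
    (hsmul : ∀ (c : k) a, f (c • a) = c • f a) :
    Cob n (fun x : ℕ → A => φ fun i => f (x i)) := by
  obtain ⟨χ, h1, h2⟩ := h
  exact ⟨_, h1.comp (fun _ => f) (fun _ => hadd) (fun _ => hsmul), fun x => by
    rw [dl_comp f hmul n χ x]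
    exact h2 _⟩

/-- pullback of cocycles along multiplicative linear maps (not nec. unital) -/
theorem Cocy.comp {n : ℕ} {φ : (ℕ → B) → k} (h : Cocy n φ) (f : A → B)
    (hmul : ∀ a b, f (a * b) = f a * f b) (hadd : ∀ a b, f (a + b) = f a + f b)
    (hsmul : ∀ (c : k) a, f (c • a) = c • f a) :
    Cocy n (fun x : ℕ → A => φ fun i => f (x i)) :=
  ⟨h.1.comp (fun _ => f) (fun _ => hadd) (fun _ => hsmul), fun x => by
    rw [dl_comp f hmul n φ x]
    exact h.2 _⟩

end cob

section mx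

variable {E κ κ' κ'' : Type} [Ring E] [Fintype κ] [DecidableEq κ] [Fintype κ'] [DecidableEq κ']

omit [Fintype κ'] [DecidableEq κ'] in
theorem apply_eq_sum (f : (κ → E) →ₗ[E] (κ' → E)) (x : κ → E) (b : κ') :
    f x b = ∑ a, x a * mx f a b := by
  have h : x = ∑ a, x a • (Pi.single a (1 : E) : κ → E) := by
    funext c
    simp [Finset.sum_apply, Pi.single_apply]
  conv_lhs => rw [h]
  rw [map_sum, Finset.sum_apply]
  refine sum_congr rfl fun a _ => ?_
  rw [map_smul]
  rfl

/-- `mx` reverses the order of composition -/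
theorem mx_comp (f : (κ → E) →ₗ[E] (κ' → E)) (g : (κ' → E) →ₗ[E] (κ'' → E)) :
    mx (g ∘ₗ f) = mx f * mx g := by
  ext a c
  rw [Matrix.mul_apply]
  change g (f (Pi.single a 1)) c = _
  rw [apply_eq_sum g]
  rfl

theorem mx_id : mx (LinearMap.id : (κ → E) →ₗ[E] (κ → E)) = 1 := by
  ext a b
  simp [mx, Matrix.one_apply, Pi.single_apply, eq_comm]

theorem mx_add (f g : (κ → E) →ₗ[E] (κ' → E)) : mx (f + g) = mx f + mx g := by
  ext a b
  simp [mx]

end mx

section rf

variable {k E A N κ : Type} [Field k] [Ring E] [Algebra k E] [Ring A] [Algebra k A]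
    [AddCommGroup N] [Module k N] [Module E N] [IsScalarTower k E N] [Fintype κ] [DecidableEq κ]

/-- the matrices of a realization -/
theorem rl_mul (X : RAct k E A N) (i : N →ₗ[E] (κ → E)) (p : (κ → E) →ₗ[E] N)
    (h : ∀ x, p (i x) = x) (a b : A) :
    mx (i ∘ₗ X.r (a * b) ∘ₗ p) = mx (i ∘ₗ X.r a ∘ₗ p) * mx (i ∘ₗ X.r b ∘ₗ p) := by
  rw [← mx_comp]
  congr 1
  ext x
  simp [X.mul, h]

theorem rl_add (X : RAct k E A N) (i : N →ₗ[E] (κ → E)) (p : (κ → E) →ₗ[E] N) (a b : A) :
    mx (i ∘ₗ X.r (a + b) ∘ₗ p) = mx (i ∘ₗ X.r a ∘ₗ p) + mx (i ∘ₗ X.r b ∘ₗ p) := by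
  ext c d
  simp [mx, X.add]

theorem rl_smul (X : RAct k E A N) (i : N →ₗ[E] (κ → E)) (p : (κ → E) →ₗ[E] N) (c : k) (a : A) :
    mx (i ∘ₗ X.r (c • a) ∘ₗ p) = c • mx (i ∘ₗ X.r a ∘ₗ p) := by
  ext u v
  simp only [mx, LinearMap.comp_apply, X.smul, Matrix.smul_apply]
  rw [algebra_compatible_smul E c, map_smul, Pi.smul_apply, smul_eq_mul, Algebra.smul_def]

end rf

end Pool.Agent.Helper44.HD
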