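import Pool.Agent.Helper44.HD.DefsQ

/-!
# Project HD (MP_e5f486_ag): basic lemmas on rational functions, integrals, `N_W(M)`
-/

set_option autoImplicit false
set_option linter.unusedSectionVars false

open Finset
open scoped TensorProduct

namespace Pool.Agent.Helper44.HD

section rf

variable {k G : Type} [Field k] [Group G] (D : RedGroup k G)
variable {M M' M'' : Type} [AddCommGroup M] [Module k M] [AddCommGroup M'] [Module k M']
  [AddCommGroup M''] [Module k M'']

theorem RF_mk {f : G → k} (hf : f ∈ D.O) (m : M) : (fun g => f g • m) ∈ D.RF M :=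
  Submodule.subset_span ⟨f, hf, m, rfl⟩

theorem RF_const (m : M) : (fun _ : G => m) ∈ D.RF M := by
  have := RF_mk D D.O.one_mem m
  simpa using this

/-- induction principle -/
theorem RF_ind {p : (G → M) → Prop} (h1 : ∀ f ∈ D.O, ∀ m : M, p fun g => f g • m) (h0 : p 0)
    (ha : ∀ F F', p F → p F' → p (F + F')) {F : G → M} (hF : F ∈ D.RF M) : p F := by
  unfold RedGroup.RF at hF
  refine Submodule.span_induction (p := fun F _ => ∀ c : k, p (c • F)) ?_ ?_ ?_ ?_ hF 1
    |> fun h => by simpa using h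
  · rintro _ ⟨f, hf, m, rfl⟩ c
    have : (c • fun g : G => f g • m) = fun g : G => (c • f) g • m := by
      funext g
      simp [smul_smul]
    rw [this]
    exact h1 _ (D.O.smul_mem hf c) _
  · intro c
    simpa using h0
  · intro F F' _ _ h h' c
    rw [smul_add]
    exact ha _ _ (h c) (h' c)
  · intro a F _ h c
    rw [smul_smul]
    exact h _

theorem RF_map (l : M →ₗ[k] M') {F : G → M} (hF : F ∈ D.RF M) :
    (fun g => l (F g)) ∈ D.RF M' := by
  refine RF_ind D (p := fun F => (fun g => l (F g)) ∈ D.RF M') ?_ ?_ ?_ hF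
  · intro f hf m
    simp only [map_smul]
    exact RF_mk D hf (l m)
  · simp only [Pi.zero_apply, map_zero]
    exact (D.RF M').zero_mem
  · intro F F' h h'
    simp only [Pi.add_apply, map_add]
    exact (D.RF M').add_mem h h'

theorem RF_self {F : G → k} (hF : F ∈ D.RF k) : F ∈ D.O := by
  refine RF_ind D (p := fun F => F ∈ D.O) ?_ ?_ ?_ hF
  · intro f hf m
    have : (fun g => f g • m) = m • f := by
      funext g
      simp [mul_comm]
    rw [this]
    exact D.O.smul_mem hf m
  · exact D.O.zero_mem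
  · intro F F' h h'
    exact D.O.add_mem h h'

theorem RF_fun (l : M →ₗ[k] k) {F : G → M} (hF : F ∈ D.RF M) : (fun g => l (F g)) ∈ D.O :=
  RF_self D (RF_map D l hF)

theorem RF_mulf {f : G → k} (hf : f ∈ D.O) {F : G → M} (hF : F ∈ D.RF M) :
    (fun g => f g • F g) ∈ D.RF M := by
  refine RF_ind D (p := fun F => (fun g => f g • F g) ∈ D.RF M) ?_ ?_ ?_ hF
  · intro f' hf' m
    simp only [smul_smul]
    exact RF_mk D (D.O.mul_mem hf hf') m
  · simp only [Pi.zero_apply, smul_zero]
    exact (D.RF M).zero_mem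
  · intro F F' h h'
    simp only [Pi.add_apply, smul_add]
    exact (D.RF M).add_mem h h'

theorem RF_bil (B : M →ₗ[k] M' →ₗ[k] M'') {F : G → M} (hF : F ∈ D.RF M) {F' : G → M'}
    (hF' : F' ∈ D.RF M') : (fun g => B (F g) (F' g)) ∈ D.RF M'' := by
  refine RF_ind D (p := fun F => (fun g => B (F g) (F' g)) ∈ D.RF M'') ?_ ?_ ?_ hF
  · intro f hf m
    simp only [map_smul, LinearMap.smul_apply]
    exact RF_mulf D hf (RF_map D (B m) hF')
  · simp only [Pi.zero_apply, map_zero, LinearMap.zero_apply]
    exact (D.RF M'').zero_mem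
  · intro F F' h h'
    simp only [Pi.add_apply, map_add, LinearMap.add_apply]
    exact (D.RF M'').add_mem h h'

theorem RF_add {F F' : G → M} (hF : F ∈ D.RF M) (hF' : F' ∈ D.RF M) :
    (fun g => F g + F' g) ∈ D.RF M := (D.RF M).add_mem hF hF'

theorem RF_smul (c : k) {F : G → M} (hF : F ∈ D.RF M) : (fun g => c • F g) ∈ D.RF M :=
  (D.RF M).smul_mem c hF

theorem RF_sum {ι : Type} (s : Finset ι) {F : ι → G → M} (hF : ∀ i ∈ s, F i ∈ D.RF M) :
    (fun g => ∑ i ∈ s, F i g) ∈ D.RF M := by
  have h := (D.RF M).sum_mem hF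
  have e : (fun g => ∑ i ∈ s, F i g) = ∑ i ∈ s, F i := by
    funext g
    rw [Finset.sum_apply]
  rw [e]
  exact h

theorem RF_inv {F : G → M} (hF : F ∈ D.RF M) : (fun g => F g⁻¹) ∈ D.RF M := by
  refine RF_ind D (p := fun F => (fun g => F g⁻¹) ∈ D.RF M) ?_ ?_ ?_ hF
  · intro f hf m
    exact RF_mk D (D.inv_mem f hf) m
  · exact (D.RF M).zero_mem
  · intro F F' h h'
    exact (D.RF M).add_mem h h'

theorem RF_left {F : G → M} (hF : F ∈ D.RF M) (h : G) : (fun g => F (h * g)) ∈ D.RF M := by
  refine RF_ind D (p := fun F => (fun g => F (h * g)) ∈ D.RF M) ?_ ?_ ?_ hF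
  · intro f hf m
    exact RF_mk D (D.left_mem f hf h) m
  · exact (D.RF M).zero_mem
  · intro F F' h h'
    exact (D.RF M).add_mem h h'

/-- explicit form -/
theorem RF_rep {F : G → M} (hF : F ∈ D.RF M) : ∃ (n : ℕ) (f : Fin n → G → k) (m : Fin n → M),
    (∀ i, f i ∈ D.O) ∧ ∀ g, F g = ∑ i, f i g • m i := by
  refine RF_ind D (p := fun F => ∃ (n : ℕ) (f : Fin n → G → k) (m : Fin n → M),
    (∀ i, f i ∈ D.O) ∧ ∀ g, F g = ∑ i, f i g • m i) ?_ ?_ ?_ hF
  · intro f hf m
    exact ⟨1, fun _ => f, fun _ => m, fun _ => hf, fun g => by simp⟩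
  · exact ⟨0, Fin.elim0, Fin.elim0, fun i => i.elim0, fun g => by simp⟩
  · rintro F F' ⟨n, f, m, h1, h2⟩ ⟨n', f', m', h1', h2'⟩
    refine ⟨n + n', Fin.append f f', Fin.append m m', ?_, ?_⟩
    · intro i
      refine Fin.addCases (fun i => ?_) (fun i => ?_) i
      · rw [Fin.append_left]
        exact h1 i
      · rw [Fin.append_right]
        exact h1' i
    · intro g
      rw [Fin.sum_univ_add]
      simp only [Fin.append_left, Fin.append_right]
      rw [← h2, ← h2']
      rfl

/-- a rational function with values in a subspace is rational as a function to the subspace -/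
theorem RF_sub (S : Submodule k M) {F : G → M} (hF : F ∈ D.RF M) (hS : ∀ g, F g ∈ S) :
    (fun g => (⟨F g, hS g⟩ : S)) ∈ D.RF S := by
  obtain ⟨q, hq⟩ := S.subtype.exists_leftInverse_of_injective S.ker_subtype
  have h := RF_map D q hF
  have e : (fun g => (⟨F g, hS g⟩ : S)) = fun g => q (F g) := by
    funext g
    have := LinearMap.congr_fun hq ⟨F g, hS g⟩
    simpa using this.symm
  rw [e]
  exact h

/-! ### integrals -/

theorem HI_uniq {F : G → M} {m m' : M} (h : D.HI F m) (h' : D.HI F m') : m = m' := by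
  rw [← sub_eq_zero]
  refine (Module.forall_dual_apply_eq_zero_iff k (m - m')).1 fun l => ?_
  rw [map_sub, h l, h' l, sub_self]

theorem HI_ex {F : G → M} (hF : F ∈ D.RF M) : ∃ m : M, D.HI F m := by
  refine RF_ind D (p := fun F => ∃ m : M, D.HI F m) ?_ ?_ ?_ hF
  · intro f _ m
    refine ⟨D.I f • m, fun l => ?_⟩
    have e : (fun g => l (f g • m)) = l m • f := by
      funext g
      simp [mul_comm]
    rw [e, map_smul, map_smul, smul_eq_mul, smul_eq_mul, mul_comm]
  · refine ⟨0, fun l => ?_⟩
    simp only [Pi.zero_apply, map_zero]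
    exact (map_zero D.I).symm
  · rintro F F' ⟨m, h⟩ ⟨m', h'⟩
    refine ⟨m + m', fun l => ?_⟩
    rw [map_add, h l, h' l, ← map_add]
    congr 1
    funext g
    simp

theorem HI_map (l : M →ₗ[k] M') {F : G → M} {m : M} (h : D.HI F m) :
    D.HI (fun g => l (F g)) (l m) := fun t => h (t ∘ₗ l)

theorem HI_const (m : M) : D.HI (fun _ : G => m) m := by
  intro l
  have e : (fun _ : G => l m) = l m • fun _ : G => (1 : k) := by
    funext g
    simp
  rw [e, map_smul, D.I_one, smul_eq_mul, mul_one]

theorem HI_add {F F' : G → M} {m m' : M} (h : D.HI F m) (h' : D.HI F' m') :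
    D.HI (fun g => F g + F' g) (m + m') := by
  intro l
  rw [map_add, h l, h' l, ← map_add]
  congr 1
  funext g
  simp

theorem HI_smul (c : k) {F : G → M} {m : M} (h : D.HI F m) : D.HI (fun g => c • F g) (c • m) := by
  intro l
  rw [map_smul, h l, ← map_smul]
  congr 1
  funext g
  simp

theorem HI_zero : D.HI (fun _ : G => (0 : M)) 0 := HI_const D 0

theorem HI_sum {ι : Type} (s : Finset ι) {F : ι → G → M} {m : ι → M}
    (h : ∀ i ∈ s, D.HI (F i) (m i)) : D.HI (fun g => ∑ i ∈ s, F i g) (∑ i ∈ s, m i) := by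
  classical
  induction s using Finset.induction_on with
  | empty => simpa using HI_zero (M := M) D
  | insert a s ha ih =>
    have h1 := HI_add D (h a (mem_insert_self a s)) (ih fun i hi => h i (mem_insert_of_mem hi))
    simpa [sum_insert ha] using h1

/-- left invariance -/
theorem HI_left {F : G → M} (hF : F ∈ D.RF M) {m : M} (h : D.HI F m) (u : G) :
    D.HI (fun g => F (u * g)) m := fun l => by
  rw [h l]
  exact (D.I_left _ (RF_fun D l hF) u).symm

/-- the integral lies in every subspace which contains all values -/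
theorem HI_mem {F : G → M} {m : M} (h : D.HI F m) (S : Submodule k M) (hS : ∀ g, F g ∈ S) :
    m ∈ S := by
  by_contra hm
  obtain ⟨l, hl, hl'⟩ := Submodule.exists_le_ker_of_notMem hm
  apply hl
  rw [h l]
  have e : (fun g => l (F g)) = 0 := by
    funext g
    exact LinearMap.mem_ker.1 (hl' (hS g))
  rw [e, map_zero]

/-- the integral of a rational function -/
noncomputable def RedGroup.int (F : G → M) : M :=
  open Classical in if h : ∃ m, D.HI F m then h.choose else 0

theorem int_spec {F : G → M} (hF : F ∈ D.RF M) : D.HI F (D.int F) := by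
  unfold RedGroup.int
  rw [dif_pos (HI_ex D hF)]
  exact (HI_ex D hF).choose_spec

theorem int_eq {F : G → M} {m : M} (h : D.HI F m) : D.int F = m := by
  have h' : ∃ m, D.HI F m := ⟨m, h⟩
  unfold RedGroup.int
  rw [dif_pos h']
  exact HI_uniq D h'.choose_spec h

end rf

section nn

variable {k G R M M' : Type} [Field k] [Group G] {D : RedGroup k G} [Ring R] [Algebra k R]
  [MulSemiringAction G R] [SMulCommClass G k R]
  [AddCommGroup M] [Module k M] [Module (Gam k R) M] [IsScalarTower k (Gam k R) M]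
  [AddCommGroup M'] [Module k M'] [Module (Gam k R) M'] [IsScalarTower k (Gam k R) M']
  {v w : Type} [Fintype v] [DecidableEq v] [Fintype w] [DecidableEq w]

/-- a `Γ`-linear map is `k`-linear -/
def gl (f : M →ₗ[Gam k R] M') : M →ₗ[k] M' := f.restrictScalars k

theorem gl_apply (f : M →ₗ[Gam k R] M') (x : M) : gl f x = f x := rfl

/-- functoriality of `N_W(M)` in `M` -/
noncomputable def NNmap (V : MRep D v) (W : MRep D w) (X : EMod D R M) (X' : EMod D R M')
    (f : M →ₗ[Gam k R] M') (hf : ∀ p x, f (X.π p x) = X'.π p (f x)) :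
    NN V W X →ₗ[EE R W] NN V W X' where
  toFun Y := ⟨fun i j => f (Y.1 i j), by
    have hY := Y.2
    rw [mem_NN] at hY ⊢
    intro g h i j
    have h1 := congrArg (gl f) (hY g h i j)
    simp only [map_sum, map_smul, gl_apply, hf] at h1
    exact h1⟩
  map_add' Y Z := by
    apply Subtype.ext
    funext i j
    exact map_add f _ _
  map_smul' A Y := by
    apply Subtype.ext
    funext i j
    change f (∑ l, (lf (A.1 i l) : Gam k R) • Y.1 l j) =
      ∑ l, (lf (A.1 i l) : Gam k R) • f (Y.1 l j)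
    rw [map_sum]
    exact sum_congr rfl fun l _ => map_smul f _ _

theorem NNmap_apply {V : MRep D v} {W : MRep D w} {X : EMod D R M} {X' : EMod D R M'}
    (f : M →ₗ[Gam k R] M') (hf : ∀ p x, f (X.π p x) = X'.π p (f x)) (Y : NN V W X) (i : w)
    (j : v) : (NNmap V W X X' f hf Y).1 i j = f (Y.1 i j) := rfl

theorem NNmap_r {V : MRep D v} {W : MRep D w} {X : EMod D R M} {X' : EMod D R M'}
    (f : M →ₗ[Gam k R] M') (hf : ∀ p x, f (X.π p x) = X'.π p (f x)) (B : EE R V) (Y : NN V W X) :
    NNmap V W X X' f hf ((NA V W X).r B Y) = (NA V W X').r B (NNmap V W X X' f hf Y) := by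
  apply Subtype.ext
  funext i j
  change f (∑ l, (rt (B.1 l j) : Gam k R) • Y.1 i l) =
    ∑ l, (rt (B.1 l j) : Gam k R) • f (Y.1 i l)
  rw [map_sum]
  exact sum_congr rfl fun l _ => map_smul f _ _

end nn

end Pool.Agent.Helper44.HD
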