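import Pool.Agent.Helper44.HD.GoalsC

/-!
# Project HD (MP_e5f486_ag): packet DU (from cochains to chains)
-/

set_option autoImplicit false

open Finset

namespace Pool.Agent.Helper44.HD

theorem bc_functional {k A : Type} [Field k] [Ring A] [Algebra k A] (n : ℕ)
    (l : HC k A n →ₗ[k] k) (x : ℕ → A) :
    l (bc k A n (tp k (n + 1) x)) = dl n (fun y => l (tp k n y)) x := by
  rw [bc_tp]
  unfold bch dl
  rw [map_add, map_sum, map_smul]
  simp only [map_smul, smul_eq_mul]

theorem du : StmtDU := by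
  intro k A B _ _ _ _ _ f hf n H z hz
  by_contra hne
  have hne' : HCmap k f (n + 1) z ∉ LinearMap.range (bc k B (n + 1)) := by
    rintro ⟨w, hw⟩
    exact hne ⟨w, hw⟩
  obtain ⟨l, hl, hl'⟩ := Submodule.exists_le_ker_of_notMem hne'
  have hφ : Coch k (n + 1) (fun x : ℕ → B => l (tp k (n + 1) x)) := (tp_coch k (n + 1)).out l
  have hc : Cocy (n + 1) (fun x : ℕ → B => l (tp k (n + 1) x)) := by
    refine ⟨hφ, fun x => ?_⟩
    rw [← bc_functional]
    exact LinearMap.mem_ker.1 (hl' ⟨_, rfl⟩)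
  obtain ⟨ψ, h1, h2⟩ := H _ hc
  have e : l ∘ₗ HCmap k f (n + 1) = h1.lin ∘ₗ bc k A n := by
    apply HC_ext
    intro x
    rw [LinearMap.comp_apply, LinearMap.comp_apply, HCmap_tp, bc_functional]
    have h3 := h2 x
    simp only [Coch.lin_tp]
    exact h3
  apply hl
  have h4 := LinearMap.congr_fun e z
  rw [LinearMap.comp_apply, LinearMap.comp_apply, hz, map_zero] at h4
  exact h4

end Pool.Agent.Helper44.HD
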