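import Pool.Agent.Helper44.HD.DefsH

/-!
# Project HD (MP_e5f486_ag), definitions Q: reductive groups, equivariant modules
-/

set_option autoImplicit false
set_option linter.unusedSectionVars false

open Finset
open scoped TensorProduct

namespace Pool.Agent.Helper44.HD

/-! ## Reductive groups and rational functions -/

/-- a linearly reductive group `G` (of `k`-points) with its algebra `O` of regular functions and its invariant
integral `I` (only the values of `I` on `O` matter) -/
structure RedGroup (k G : Type) [Field k] [Group G] where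
  O : Subalgebra k (G → k)
  inv_mem : ∀ f ∈ O, (fun g => f g⁻¹) ∈ O
  left_mem : ∀ f ∈ O, ∀ h : G, (fun g => f (h * g)) ∈ O
  I : (G → k) →ₗ[k] k
  I_one : I (fun _ => 1) = 1
  I_left : ∀ f ∈ O, ∀ h : G, I (fun g => f (h * g)) = I f

section group

variable {k G : Type} [Field k] [Group G]

/-- rational functions `G → M`: the span of the functions `g ↦ f(g) m`, `f ∈ O` -/
def RedGroup.RF (D : RedGroup k G) (M : Type) [AddCommGroup M] [Module k M] :
    Submodule k (G → M) :=
  Submodule.span k {F | ∃ f ∈ D.O, ∃ m : M, F = fun g => f g • m}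

/-- `m` is the integral of `F : G → M` -/
def RedGroup.HI (D : RedGroup k G) {M : Type} [AddCommGroup M] [Module k M] (F : G → M) (m : M) :
    Prop :=
  ∀ l : M →ₗ[k] k, l m = D.I fun g => l (F g)

/-- the regular functions on `G × G` -/
def RedGroup.O2 (D : RedGroup k G) : Submodule k (G × G → k) :=
  Submodule.span k {F | ∃ f ∈ D.O, ∃ f' ∈ D.O, F = fun p => f p.1 * f' p.2}

theorem RedGroup.O2_ind (D : RedGroup k G) {p : (G × G → k) → Prop}
    (h1 : ∀ f ∈ D.O, ∀ f' ∈ D.O, p fun q => f q.1 * f' q.2) (h0 : p 0)
    (ha : ∀ F F', p F → p F' → p (F + F')) {F : G × G → k} (hF : F ∈ D.O2) : p F := by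
  unfold RedGroup.O2 at hF
  refine Submodule.span_induction (p := fun F _ => ∀ c : k, p (c • F)) ?_ ?_ ?_ ?_ hF 1
    |> fun h => by simpa using h
  · rintro _ ⟨f, hf, f', hf', rfl⟩ c
    have : (c • fun q : G × G => f q.1 * f' q.2) = fun q : G × G => (c • f) q.1 * f' q.2 := by
      funext q
      simp [mul_assoc]
    rw [this]
    exact h1 _ (D.O.smul_mem hf c) _ hf'
  · intro c
    simpa using h0
  · intro F F' _ _ h h' c
    rw [smul_add]
    exact ha _ _ (h c) (h' c)
  · intro a F _ h c
    rw [smul_smul]
    exact h _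

/-- the reductive structure of `G × G` -/
def RedGroup.pr (D : RedGroup k G) : RedGroup k (G × G) where
  O := D.O2.toSubalgebra
    (Submodule.subset_span ⟨1, D.O.one_mem, 1, D.O.one_mem, by funext p; simp⟩) (by
      intro x y hx hy
      refine D.O2_ind (p := fun x => x * y ∈ D.O2) ?_ ?_ ?_ hx
      · intro f hf f' hf'
        refine D.O2_ind (p := fun y => (fun q : G × G => f q.1 * f' q.2) * y ∈ D.O2) ?_ ?_ ?_ hy
        · intro e he e' he'
          refine Submodule.subset_span ⟨f * e, D.O.mul_mem hf he, f' * e', D.O.mul_mem hf' he', ?_⟩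
          funext q
          simp only [Pi.mul_apply]
          ring
        · rw [mul_zero]
          exact D.O2.zero_mem
        · intro a b ha hb
          rw [mul_add]
          exact D.O2.add_mem ha hb
      · rw [zero_mul]
        exact D.O2.zero_mem
      · intro a b ha hb
        rw [add_mul]
        exact D.O2.add_mem ha hb)
  inv_mem := by
    intro F hF
    refine D.O2_ind (p := fun F => (fun g => F g⁻¹) ∈ D.O2) ?_ ?_ ?_ hF
    · intro f hf f' hf'
      exact Submodule.subset_span ⟨_, D.inv_mem f hf, _, D.inv_mem f' hf', rfl⟩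
    · exact D.O2.zero_mem
    · intro a b ha hb
      exact D.O2.add_mem ha hb
  left_mem := by
    intro F hF h
    refine D.O2_ind (p := fun F => (fun g => F (h * g)) ∈ D.O2) ?_ ?_ ?_ hF
    · intro f hf f' hf'
      exact Submodule.subset_span ⟨_, D.left_mem f hf h.1, _, D.left_mem f' hf' h.2, rfl⟩
    · exact D.O2.zero_mem
    · intro a b ha hb
      exact D.O2.add_mem ha hb
  I :=
    { toFun := fun F => D.I fun g => D.I fun g' => F (g, g')
      map_add' := by
        intro a b
        rw [← map_add]
        congr 1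
        funext g
        rw [Pi.add_apply, ← map_add]
        rfl
      map_smul' := by
        intro c a
        rw [← map_smul]
        congr 1
        funext g
        rw [Pi.smul_apply, ← map_smul]
        rfl }
  I_one := by
    change D.I (fun g => D.I fun g' => 1) = 1
    simp only [D.I_one]
  I_left := by
    intro F hF h
    change D.I (fun g => D.I fun g' => F (h * (g, g'))) = D.I fun g => D.I fun g' => F (g, g')
    refine D.O2_ind (p := fun F => D.I (fun g => D.I fun g' => F (h * (g, g'))) =
      D.I fun g => D.I fun g' => F (g, g')) ?_ ?_ ?_ hF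
    · intro f hf f' hf'
      have e1 : ∀ c : k, ∀ u : G → k, D.I (fun g' => c * u g') = c * D.I u := by
        intro c u
        rw [← smul_eq_mul, ← map_smul]
        rfl
      have e2 : ∀ c : k, ∀ u : G → k, D.I (fun g' => u g' * c) = D.I u * c := by
        intro c u
        simp only [mul_comm _ c]
        exact e1 c u
      change D.I (fun g => D.I fun g' => f (h.1 * g) * f' (h.2 * g')) =
        D.I fun g => D.I fun g' => f g * f' g'
      simp only [e1, e2]
      rw [D.I_left f hf h.1, D.I_left f' hf' h.2]
    · rfl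
    · intro a b ha hb
      have e : ∀ u v : G → G → k, D.I (fun g => D.I fun g' => u g g' + v g g') =
          D.I (fun g => D.I fun g' => u g g') + D.I fun g => D.I fun g' => v g g' := by
        intro u v
        rw [← map_add]
        congr 1
        funext g
        rw [Pi.add_apply, ← map_add]
        rfl
      simp only [Pi.add_apply]
      rw [e, e, ha, hb]

/-! ## Rational matrix representations -/

/-- a rational representation of `G` on the finite index set `w` -/
structure MRep (D : RedGroup k G) (w : Type) [Fintype w] [DecidableEq w] where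
  m : G → Matrix w w k
  one : m 1 = 1
  mul : ∀ g h, m (g * h) = m g * m h
  rat : ∀ i j, (fun g => m g i j) ∈ D.O

/-- `W'` is a direct summand of the representation `W` -/
def Retr {D : RedGroup k G} {w w' : Type} [Fintype w] [DecidableEq w] [Fintype w']
    [DecidableEq w'] (W' : MRep D w') (W : MRep D w) : Prop :=
  ∃ (a : Matrix w w' k) (b : Matrix w' w k), (∀ g, W.m g * a = a * W'.m g) ∧
    (∀ g, W'.m g * b = b * W.m g) ∧ b * a = 1

/-- direct sum -/
def MRep.sum {D : RedGroup k G} {v w : Type} [Fintype v] [DecidableEq v] [Fintype w]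
    [DecidableEq w] (V : MRep D v) (W : MRep D w) : MRep D (v ⊕ w) where
  m g := Matrix.fromBlocks (V.m g) 0 0 (W.m g)
  one := by rw [V.one, W.one, Matrix.fromBlocks_one]
  mul g h := by
    rw [V.mul, W.mul, Matrix.fromBlocks_multiply]
    simp
  rat := by
    rintro (i | i) (j | j)
    · exact V.rat i j
    · exact D.O.zero_mem
    · exact D.O.zero_mem
    · exact W.rat i j

/-- dual representation, `g ↦` the transpose of `W(g⁻¹)` -/
def MRep.dual {D : RedGroup k G} {w : Type} [Fintype w] [DecidableEq w] (W : MRep D w) :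
    MRep D w where
  m g := (W.m g⁻¹).transpose
  one := by rw [inv_one, W.one, Matrix.transpose_one]
  mul g h := by rw [mul_inv_rev, W.mul, Matrix.transpose_mul]
  rat i j := D.inv_mem _ (W.rat j i)

end group

/-! ## Equivariant maps between the modules `R ⊗ V` -/

section hom

variable {k G : Type} [Field k] [Group G] {D : RedGroup k G}
variable (R : Type) [Ring R] [Algebra k R] [MulSemiringAction G R] [SMulCommClass G k R]
variable {u v w : Type} [Fintype u] [DecidableEq u] [Fintype v] [DecidableEq v] [Fintype w]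
  [DecidableEq w]

/-- `Hom(R ⊗ V, R ⊗ W)`: the matrices `A` over `R` with `W(g) (g • A) = A V(g)` -/
def Hm (V : MRep D v) (W : MRep D w) : Submodule k (Matrix w v R) where
  carrier := {A | ∀ (g : G) (i : w) (j : v),
    ∑ a, W.m g i a • (g • A a j) = ∑ b, V.m g b j • A i b}
  zero_mem' := by
    intro g i j
    simp
  add_mem' := by
    intro A B hA hB g i j
    simp only [Matrix.add_apply, smul_add, sum_add_distrib]
    rw [hA g i j, hB g i j]
  smul_mem' := by
    intro c A hA g i j
    have e1 : ∀ a, W.m g i a • (g • (c • A) a j) = c • (W.m g i a • (g • A a j)) := by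
      intro a
      rw [Matrix.smul_apply, smul_comm g c, smul_comm (W.m g i a) c]
    have e2 : ∀ b, V.m g b j • (c • A) i b = c • (V.m g b j • A i b) := by
      intro b
      rw [Matrix.smul_apply, smul_comm (V.m g b j) c]
    simp only [e1, e2, ← smul_sum]
    rw [hA g i j]

variable {R}

theorem Hm_mul {U : MRep D u} {V : MRep D v} {W : MRep D w} {A : Matrix w v R} {B : Matrix v u R}
    (hA : A ∈ Hm R V W) (hB : B ∈ Hm R U V) : A * B ∈ Hm R U W := by
  intro g i j
  calc ∑ a, W.m g i a • (g • (A * B) a j)
      = ∑ l, (∑ a, W.m g i a • (g • A a l)) * (g • B l j) := by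
        simp only [Matrix.mul_apply, smul_sum, smul_mul', sum_mul, smul_mul_assoc]
        exact sum_comm
    _ = ∑ l, (∑ b, V.m g b l • A i b) * (g • B l j) := by
        exact sum_congr rfl fun l _ => by rw [hA g i l]
    _ = ∑ b, A i b * ∑ l, V.m g b l • (g • B l j) := by
        simp only [sum_mul, mul_sum, smul_mul_assoc, mul_smul_comm]
        exact sum_comm
    _ = ∑ b, A i b * ∑ c, U.m g c j • B b c := by
        exact sum_congr rfl fun b _ => by rw [hB g b j]
    _ = ∑ b, U.m g b j • (A * B) i b := by
        simp only [Matrix.mul_apply, mul_sum, smul_sum, mul_smul_comm]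
        exact sum_comm

variable (R)

/-- `E(W)`, the algebra of equivariant endomorphisms of `R ⊗ W` -/
def EE (W : MRep D w) : Subalgebra k (Matrix w w R) :=
  (Hm R W W).toSubalgebra (by
    intro g i j
    have e1 : ∀ a, W.m g i a • (g • (1 : Matrix w w R) a j) =
        if a = j then algebraMap k R (W.m g i a) else 0 := by
      intro a
      by_cases h : a = j
      · subst h
        simp [Algebra.smul_def]
      · simp [Matrix.one_apply_ne h, h]
    have e2 : ∀ b, W.m g b j • (1 : Matrix w w R) i b =
        if i = b then algebraMap k R (W.m g b j) else 0 := by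
      intro b
      by_cases h : i = b
      · subst h
        simp [Algebra.smul_def]
      · simp [Matrix.one_apply_ne h, h]
    simp only [e1, e2]
    simp) (fun _ _ hA hB => Hm_mul hA hB)

end hom

section homact

variable {k G : Type} [Field k] [Group G] {D : RedGroup k G}
variable {R : Type} [Ring R] [Algebra k R] [MulSemiringAction G R] [SMulCommClass G k R]
variable {v w : Type} [Fintype v] [DecidableEq v] [Fintype w] [DecidableEq w]

/-- `Hom(R ⊗ V, R ⊗ W)` as a left module over `E(W)` -/
instance instModHm (V : MRep D v) (W : MRep D w) : Module (EE R W) (Hm R V W) where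
  smul A B := ⟨A.1 * B.1, Hm_mul A.2 B.2⟩
  one_smul B := Subtype.ext (Matrix.one_mul B.1)
  mul_smul A B C := Subtype.ext (Matrix.mul_assoc A.1 B.1 C.1)
  smul_zero A := Subtype.ext (Matrix.mul_zero A.1)
  smul_add A B C := Subtype.ext (Matrix.mul_add A.1 B.1 C.1)
  add_smul A B C := Subtype.ext (Matrix.add_mul A.1 B.1 C.1)
  zero_smul B := Subtype.ext (Matrix.zero_mul B.1)

theorem smul_Hm {V : MRep D v} {W : MRep D w} (A : EE R W) (B : Hm R V W) :
    (A • B).1 = A.1 * B.1 := rfl

instance instTowHm (V : MRep D v) (W : MRep D w) : IsScalarTower k (EE R W) (Hm R V W) where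
  smul_assoc c A B := Subtype.ext (Matrix.smul_mul c A.1 B.1)

/-- `Hom(R ⊗ V, R ⊗ W)` as a right module over `E(V)` -/
def HU (V : MRep D v) (W : MRep D w) : RAct k k (EE R V) (Hm R V W) where
  r B :=
    { toFun := fun A => ⟨A.1 * B.1, Hm_mul A.2 B.2⟩
      map_add' := fun A A' => Subtype.ext (Matrix.add_mul A.1 A'.1 B.1)
      map_smul' := fun c A => Subtype.ext (Matrix.smul_mul c A.1 B.1) }
  add B C A := Subtype.ext (Matrix.mul_add A.1 B.1 C.1)
  smul c B A := Subtype.ext (Matrix.mul_smul A.1 c B.1)
  mul B C A := Subtype.ext (Matrix.mul_assoc A.1 B.1 C.1).symm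
  one A := Subtype.ext (Matrix.mul_one A.1)

theorem HU_apply {V : MRep D v} {W : MRep D w} (B : EE R V) (A : Hm R V W) :
    ((HU V W).r B A).1 = A.1 * B.1 := rfl

end homact

/-! ## Equivariant modules over `Γ = R ⊗ Rᵒᵖ` -/

section gam

/-- `R ⊗ Rᵒᵖ` -/
abbrev Gam (k R : Type) [Field k] [Ring R] [Algebra k R] : Type := R ⊗[k] Rᵐᵒᵖ

variable (k : Type) {G : Type} (R : Type) [Field k] [Group G] [Ring R] [Algebra k R]
  [MulSemiringAction G R] [SMulCommClass G k R]

/-- the automorphism `r ⊗ s ↦ (g • r) ⊗ (g' • s)` of `R ⊗ Rᵒᵖ` defined by `(g, g')` -/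
noncomputable def gm (p : G × G) : Gam k R →ₐ[k] Gam k R :=
  Algebra.TensorProduct.map (MulSemiringAction.toAlgHom k R p.1)
    (AlgHom.op (MulSemiringAction.toAlgHom k R p.2))

variable {k R}

theorem gm_tmul (p : G × G) (r s : R) :
    gm k R p (r ⊗ₜ MulOpposite.op s) = (p.1 • r) ⊗ₜ MulOpposite.op (p.2 • s) := rfl

variable (D : RedGroup k G)

/-- a rational `G × G`-equivariant `R ⊗ Rᵒᵖ`-module -/
structure EMod (R M : Type) [Ring R] [Algebra k R] [MulSemiringAction G R] [SMulCommClass G k R]
    [AddCommGroup M] [Module k M] [Module (Gam k R) M] [IsScalarTower k (Gam k R) M] where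
  π : Representation k (G × G) M
  semi : ∀ (p : G × G) (c : Gam k R) (m : M), π p (c • m) = gm k R p c • π p m
  rat : ∀ m : M, (fun p => π p m) ∈ D.pr.RF M

end gam

/-! ## The bimodules `N_W(M)` -/

section nn

variable {k G R M : Type} [Field k] [Group G] {D : RedGroup k G} [Ring R] [Algebra k R]
  [MulSemiringAction G R] [SMulCommClass G k R]
  [AddCommGroup M] [Module k M] [Module (Gam k R) M] [IsScalarTower k (Gam k R) M]
  {v w : Type} [Fintype v] [DecidableEq v] [Fintype w] [DecidableEq w]

theorem gsmul_comm (c : k) (x : Gam k R) (m : M) : x • (c • m) = c • (x • m) := by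
  rw [← algebraMap_smul (Gam k R) c m, ← algebraMap_smul (Gam k R) c (x • m), smul_smul, smul_smul,
    Algebra.commutes]

theorem gzero_smul (m : M) : (0 : Gam k R) • m = 0 := zero_smul (Gam k R) m

/-- left multiplication by `r` -/
def lf (r : R) : Gam k R := r ⊗ₜ (1 : Rᵐᵒᵖ)

/-- right multiplication by `r` -/
def rt (r : R) : Gam k R := (1 : R) ⊗ₜ MulOpposite.op r

theorem gm_lf (p : G × G) (r : R) : gm k R p (lf r) = lf (p.1 • r) := by
  unfold lf
  rw [← MulOpposite.op_one, gm_tmul, smul_one]

theorem gm_rt (p : G × G) (r : R) : gm k R p (rt r) = rt (p.2 • r) := by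
  unfold rt
  rw [gm_tmul, smul_one]

theorem lf_mul (r s : R) : (lf (r * s) : Gam k R) = lf r * lf s := by
  simp [lf]

theorem rt_mul (r s : R) : (rt (r * s) : Gam k R) = rt s * rt r := by
  simp [rt]

theorem lf_rt (r s : R) : (lf r * rt s : Gam k R) = rt s * lf r := by
  simp [lf, rt]

theorem lf_one : (lf (1 : R) : Gam k R) = 1 := rfl

theorem rt_one : (rt (1 : R) : Gam k R) = 1 := rfl

theorem lf_add (r s : R) : (lf (r + s) : Gam k R) = lf r + lf s := by
  simp [lf, TensorProduct.add_tmul]

theorem rt_add (r s : R) : (rt (r + s) : Gam k R) = rt r + rt s := by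
  simp [rt, TensorProduct.tmul_add]

theorem lf_zero : (lf (0 : R) : Gam k R) = 0 := by simp [lf]

theorem rt_zero : (rt (0 : R) : Gam k R) = 0 := by simp [rt]

theorem lf_smul (c : k) (r : R) : (lf (c • r) : Gam k R) = c • lf r := rfl

theorem rt_smul (c : k) (r : R) : (rt (c • r) : Gam k R) = c • rt r := by
  simp [rt]

theorem lf_sum {ι : Type} (s : Finset ι) (f : ι → R) :
    (lf (∑ i ∈ s, f i) : Gam k R) = ∑ i ∈ s, lf (f i) := by
  simp [lf, TensorProduct.sum_tmul]

theorem rt_sum {ι : Type} (s : Finset ι) (f : ι → R) :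
    (rt (∑ i ∈ s, f i) : Gam k R) = ∑ i ∈ s, rt (f i) := by
  simp [rt, TensorProduct.tmul_sum]

/-- `N_W(M)`: the matrices `Y` over `M` with `W(g) ((g, h) Y) V(h)⁻¹ = Y` -/
def NN (V : MRep D v) (W : MRep D w) (X : EMod D R M) : Submodule k (w → v → M) where
  carrier := {Y | ∀ (g h : G) (i : w) (j : v),
    ∑ a, ∑ b, (W.m g i a * V.m h⁻¹ b j) • X.π (g, h) (Y a b) = Y i j}
  zero_mem' := by
    intro g h i j
    simp
  add_mem' := by
    intro A B hA hB g h i j
    simp only [Pi.add_apply, map_add, smul_add, sum_add_distrib]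
    rw [hA g h i j, hB g h i j]
  smul_mem' := by
    intro c A hA g h i j
    have e : ∀ a b, (W.m g i a * V.m h⁻¹ b j) • X.π (g, h) ((c • A) a b) =
        c • ((W.m g i a * V.m h⁻¹ b j) • X.π (g, h) (A a b)) := by
      intro a b
      rw [Pi.smul_apply, Pi.smul_apply, map_smul, smul_comm c]
    simp only [e, ← smul_sum]
    rw [hA g h i j]
    rfl

/-- an equivalent form of the condition in `NN`: `W(g) ((g, h) Y) = Y V(h)` -/
theorem mem_NN {V : MRep D v} {W : MRep D w} {X : EMod D R M} {Y : w → v → M} :
    Y ∈ NN V W X ↔ ∀ (g h : G) (i : w) (j : v),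
      ∑ a, W.m g i a • X.π (g, h) (Y a j) = ∑ b, V.m h b j • Y i b := by
  constructor
  · intro hY g h i j
    have e : ∀ b, V.m h b j • Y i b =
        ∑ a, ∑ c, (W.m g i a * (V.m h⁻¹ c b * V.m h b j)) • X.π (g, h) (Y a c) := by
      intro b
      rw [← hY g h i b, smul_sum]
      refine sum_congr rfl fun a _ => ?_
      rw [smul_sum]
      refine sum_congr rfl fun c _ => ?_
      rw [smul_smul]
      congr 1
      ring
    simp only [e]
    rw [sum_comm]
    refine sum_congr rfl fun a _ => ?_
    rw [sum_comm]
    have e2 : ∀ c, ∑ b, (W.m g i a * (V.m h⁻¹ c b * V.m h b j)) • X.π (g, h) (Y a c) =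
        (W.m g i a * (1 : Matrix v v k) c j) • X.π (g, h) (Y a c) := by
      intro c
      rw [← sum_smul, ← mul_sum, ← Matrix.mul_apply, ← V.mul, inv_mul_cancel, V.one]
    simp only [e2, Matrix.one_apply]
    simp
  · intro hY g h i j
    have e : ∀ a b, (W.m g i a * V.m h⁻¹ b j) • X.π (g, h) (Y a b) =
        V.m h⁻¹ b j • (W.m g i a • X.π (g, h) (Y a b)) := by
      intro a b
      rw [smul_smul, mul_comm]
    simp only [e]
    rw [sum_comm]
    simp only [← smul_sum, hY g h i]
    have e2 : ∀ b, V.m h⁻¹ b j • ∑ c, V.m h c b • Y i c =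
        ∑ c, (V.m h c b * V.m h⁻¹ b j) • Y i c := by
      intro b
      rw [smul_sum]
      exact sum_congr rfl fun c _ => by rw [smul_smul, mul_comm]
    simp only [e2]
    rw [sum_comm]
    simp only [← sum_smul, ← Matrix.mul_apply, ← V.mul, mul_inv_cancel, V.one]
    simp [Matrix.one_apply]

/-- left multiplication by `E(W)` -/
theorem lmul_mem {V : MRep D v} {W : MRep D w} {X : EMod D R M} {A : Matrix w w R}
    (hA : A ∈ EE R W) {Y : w → v → M} (hY : Y ∈ NN V W X) :
    (fun i j => ∑ l, (lf (A i l) : Gam k R) • Y l j : w → v → M) ∈ NN V W X := by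
  have hA' : ∀ (g : G) (i : w) (j : w), ∑ a, W.m g i a • (g • A a j) = ∑ b, W.m g b j • A i b := hA
  rw [mem_NN] at hY ⊢
  intro g h i j
  calc ∑ a, W.m g i a • X.π (g, h) (∑ l, (lf (A a l) : Gam k R) • Y l j)
      = ∑ l, (lf (∑ a, W.m g i a • (g • A a l)) : Gam k R) • X.π (g, h) (Y l j) := by
        simp only [map_sum, X.semi, gm_lf, smul_sum, lf_sum, sum_smul, lf_smul, smul_assoc]
        exact sum_comm
    _ = ∑ l, (lf (∑ b, W.m g b l • A i b) : Gam k R) • X.π (g, h) (Y l j) := by
        exact sum_congr rfl fun l _ => by rw [hA' g i l]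
    _ = ∑ b, (lf (A i b) : Gam k R) • ∑ l, W.m g b l • X.π (g, h) (Y l j) := by
        simp only [smul_sum, lf_sum, sum_smul, lf_smul, smul_assoc, gsmul_comm]
        exact sum_comm
    _ = ∑ b, (lf (A i b) : Gam k R) • ∑ c, V.m h c j • Y b c := by
        exact sum_congr rfl fun b _ => by rw [hY g h b j]
    _ = _ := by
        simp only [smul_sum, gsmul_comm]
        exact sum_comm

/-- right multiplication by `E(V)` -/
theorem rmul_mem {V : MRep D v} {W : MRep D w} {X : EMod D R M} {B : Matrix v v R}
    (hB : B ∈ EE R V) {Y : w → v → M} (hY : Y ∈ NN V W X) :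
    (fun i j => ∑ l, (rt (B l j) : Gam k R) • Y i l : w → v → M) ∈ NN V W X := by
  have hB' : ∀ (g : G) (i : v) (j : v), ∑ a, V.m g i a • (g • B a j) = ∑ b, V.m g b j • B i b := hB
  rw [mem_NN] at hY ⊢
  intro g h i j
  calc ∑ a, W.m g i a • X.π (g, h) (∑ l, (rt (B l j) : Gam k R) • Y a l)
      = ∑ l, (rt (h • B l j) : Gam k R) • ∑ a, W.m g i a • X.π (g, h) (Y a l) := by
        simp only [map_sum, X.semi, gm_rt, smul_sum, gsmul_comm]
        exact sum_comm
    _ = ∑ l, (rt (h • B l j) : Gam k R) • ∑ b, V.m h b l • Y i b := by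
        exact sum_congr rfl fun l _ => by rw [hY g h i l]
    _ = ∑ b, (rt (∑ l, V.m h b l • (h • B l j)) : Gam k R) • Y i b := by
        simp only [smul_sum, rt_sum, sum_smul, rt_smul, smul_assoc, gsmul_comm]
        exact sum_comm
    _ = ∑ b, (rt (∑ l, V.m h l j • B b l) : Gam k R) • Y i b := by
        exact sum_congr rfl fun b _ => by rw [hB' h b j]
    _ = _ := by
        simp only [smul_sum, rt_sum, sum_smul, rt_smul, smul_assoc]
        exact sum_comm

noncomputable instance instModNN (V : MRep D v) (W : MRep D w) (X : EMod D R M) :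
    Module (EE R W) (NN V W X) where
  smul A Y := ⟨fun i j => ∑ l, (lf (A.1 i l) : Gam k R) • Y.1 l j, lmul_mem A.2 Y.2⟩
  one_smul Y := by
    apply Subtype.ext
    funext i j
    change ∑ l, (lf ((1 : Matrix w w R) i l) : Gam k R) • Y.1 l j = Y.1 i j
    rw [sum_eq_single i]
    · rw [Matrix.one_apply_eq, lf_one, one_smul]
    · intro l _ hl
      rw [Matrix.one_apply_ne (Ne.symm hl), lf_zero]
      exact gzero_smul _
    · intro h
      exact absurd (mem_univ i) h
  mul_smul A B Y := by
    apply Subtype.ext
    funext i j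
    change ∑ l, (lf ((A.1 * B.1) i l) : Gam k R) • Y.1 l j =
      ∑ l, (lf (A.1 i l) : Gam k R) • ∑ m, (lf (B.1 l m) : Gam k R) • Y.1 m j
    simp only [Matrix.mul_apply, lf_sum, lf_mul, sum_smul, smul_sum, smul_smul]
    exact sum_comm
  smul_zero A := by
    apply Subtype.ext
    funext i j
    change ∑ l, (lf (A.1 i l) : Gam k R) • (0 : M) = 0
    simp
  smul_add A Y Z := by
    apply Subtype.ext
    funext i j
    change ∑ l, (lf (A.1 i l) : Gam k R) • (Y.1 l j + Z.1 l j) =
      (∑ l, (lf (A.1 i l) : Gam k R) • Y.1 l j) + ∑ l, (lf (A.1 i l) : Gam k R) • Z.1 l j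
    simp only [smul_add, sum_add_distrib]
  add_smul A B Y := by
    apply Subtype.ext
    funext i j
    change ∑ l, (lf (A.1 i l + B.1 i l) : Gam k R) • Y.1 l j =
      (∑ l, (lf (A.1 i l) : Gam k R) • Y.1 l j) + ∑ l, (lf (B.1 i l) : Gam k R) • Y.1 l j
    simp only [lf_add, add_smul, sum_add_distrib]
  zero_smul Y := by
    apply Subtype.ext
    funext i j
    change ∑ l, (lf (0 : R) : Gam k R) • Y.1 l j = 0
    refine sum_eq_zero fun l _ => ?_
    rw [lf_zero]
    exact gzero_smul _

theorem smul_NN {V : MRep D v} {W : MRep D w} {X : EMod D R M} (A : EE R W) (Y : NN V W X) (i : w)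
    (j : v) : (A • Y).1 i j = ∑ l, (lf (A.1 i l) : Gam k R) • Y.1 l j := rfl

instance instTowNN (V : MRep D v) (W : MRep D w) (X : EMod D R M) :
    IsScalarTower k (EE R W) (NN V W X) where
  smul_assoc c A Y := by
    apply Subtype.ext
    funext i j
    change ∑ l, (lf (c • A.1 i l) : Gam k R) • Y.1 l j =
      c • ∑ l, (lf (A.1 i l) : Gam k R) • Y.1 l j
    simp only [lf_smul, smul_assoc, smul_sum]

/-- `N_W(M)` as an `(E(W), E(V))`-bimodule -/
noncomputable def NA (V : MRep D v) (W : MRep D w) (X : EMod D R M) :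
    RAct k (EE R W) (EE R V) (NN V W X) where
  r B :=
    { toFun := fun Y => ⟨fun i j => ∑ l, (rt (B.1 l j) : Gam k R) • Y.1 i l, rmul_mem B.2 Y.2⟩
      map_add' := by
        intro Y Z
        apply Subtype.ext
        funext i j
        change ∑ l, (rt (B.1 l j) : Gam k R) • (Y.1 i l + Z.1 i l) =
          (∑ l, (rt (B.1 l j) : Gam k R) • Y.1 i l) + ∑ l, (rt (B.1 l j) : Gam k R) • Z.1 i l
        simp only [smul_add, sum_add_distrib]
      map_smul' := by
        intro A Y
        apply Subtype.ext
        funext i j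
        change ∑ l, (rt (B.1 l j) : Gam k R) • ∑ m, (lf (A.1 i m) : Gam k R) • Y.1 m l =
          ∑ m, (lf (A.1 i m) : Gam k R) • ∑ l, (rt (B.1 l j) : Gam k R) • Y.1 m l
        simp only [smul_sum, smul_smul, lf_rt]
        exact sum_comm }
  add B C Y := by
    apply Subtype.ext
    funext i j
    change ∑ l, (rt (B.1 l j + C.1 l j) : Gam k R) • Y.1 i l =
      (∑ l, (rt (B.1 l j) : Gam k R) • Y.1 i l) + ∑ l, (rt (C.1 l j) : Gam k R) • Y.1 i l
    simp only [rt_add, add_smul, sum_add_distrib]
  smul c B Y := by
    apply Subtype.ext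
    funext i j
    change ∑ l, (rt (c • B.1 l j) : Gam k R) • Y.1 i l =
      c • ∑ l, (rt (B.1 l j) : Gam k R) • Y.1 i l
    simp only [rt_smul, smul_assoc, smul_sum]
  mul B C Y := by
    apply Subtype.ext
    funext i j
    change ∑ l, (rt ((B.1 * C.1) l j) : Gam k R) • Y.1 i l =
      ∑ l, (rt (C.1 l j) : Gam k R) • ∑ m, (rt (B.1 m l) : Gam k R) • Y.1 i m
    simp only [Matrix.mul_apply, rt_sum, rt_mul, sum_smul, smul_sum, smul_smul]
    exact sum_comm
  one Y := by
    apply Subtype.ext
    funext i j
    change ∑ l, (rt ((1 : Matrix v v R) l j) : Gam k R) • Y.1 i l = Y.1 i j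
    rw [sum_eq_single j]
    · rw [Matrix.one_apply_eq, rt_one, one_smul]
    · intro l _ hl
      rw [Matrix.one_apply_ne hl, rt_zero]
      exact gzero_smul _
    · intro h
      exact absurd (mem_univ j) h

/-- the free `Γ`-module of the functions `p → q → Γ` -/
def FM (p q k R : Type) [Field k] [Ring R] [Algebra k R] : Type := p → q → Gam k R

section fm

variable (p q k R : Type) [Field k] [Ring R] [Algebra k R]

noncomputable instance : AddCommGroup (FM p q k R) := inferInstanceAs (AddCommGroup (p → q → Gam k R))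

noncomputable instance : Module k (FM p q k R) := inferInstanceAs (Module k (p → q → Gam k R))

noncomputable instance : Module (Gam k R) (FM p q k R) :=
  inferInstanceAs (Module (Gam k R) (p → q → Gam k R))

instance : IsScalarTower k (Gam k R) (FM p q k R) :=
  inferInstanceAs (IsScalarTower k (Gam k R) (p → q → Gam k R))

instance [Finite p] [Finite q] : Module.Free (Gam k R) (FM p q k R) :=
  inferInstanceAs (Module.Free (Gam k R) (p → q → Gam k R))

instance [Finite p] [Finite q] : Module.Finite (Gam k R) (FM p q k R) :=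
  inferInstanceAs (Module.Finite (Gam k R) (p → q → Gam k R))

variable {p q k R}

theorem FM_add (x y : FM p q k R) (a : p) (b : q) : (x + y) a b = x a b + y a b := rfl

theorem FM_smulk (c : k) (x : FM p q k R) (a : p) (b : q) : (c • x) a b = c • x a b := rfl

theorem FM_smul (c : Gam k R) (x : FM p q k R) (a : p) (b : q) : (c • x) a b = c * x a b := rfl

theorem FM_zero (a : p) (b : q) : (0 : FM p q k R) a b = 0 := rfl

end fm

/-- the action of `(g, h)` on the free module `Γ ⊗ α ⊗ β` -/
noncomputable def fabF {p q : Type} [Fintype p] [DecidableEq p] [Fintype q] [DecidableEq q]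
    (α : MRep D p) (β : MRep D q) (g h : G) (x : FM p q k R) : FM p q k R :=
  fun a b => ∑ a', ∑ b', (α.m g a a' * β.m h b b') • gm k R (g, h) (x a' b')

theorem NA_apply {V : MRep D v} {W : MRep D w} {X : EMod D R M} (B : EE R V) (Y : NN V W X) (i : w)
    (j : v) : ((NA V W X).r B Y).1 i j = ∑ l, (rt (B.1 l j) : Gam k R) • Y.1 i l := rfl

end nn

/-! ## The module of matrix coefficients -/

section bf

/-- functions `G → R` with the `Γ`-module structure `((r ⊗ s) F)(g) = r F(g) (g • s)` -/
def BF (G R : Type) : Type := G → R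

variable {k G R : Type} [Field k] [Group G] [Ring R] [Algebra k R]
  [MulSemiringAction G R] [SMulCommClass G k R]

instance : AddCommGroup (BF G R) := inferInstanceAs (AddCommGroup (G → R))

instance : Module k (BF G R) := inferInstanceAs (Module k (G → R))

variable (k G R) in
/-- the action of `r ⊗ s` on functions -/
def bfl : R →ₐ[k] Module.End k (BF G R) where
  toFun r :=
    { toFun := fun F g => r * F g
      map_add' := fun F F' => funext fun g => mul_add r (F g) (F' g)
      map_smul' := fun c F => funext fun g => mul_smul_comm c r (F g) }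
  map_one' := LinearMap.ext fun F => funext fun g => one_mul (F g)
  map_mul' r s := LinearMap.ext fun F => funext fun g => mul_assoc r s (F g)
  map_zero' := LinearMap.ext fun F => funext fun g => zero_mul (F g)
  map_add' r s := LinearMap.ext fun F => funext fun g => add_mul r s (F g)
  commutes' c := LinearMap.ext fun F => funext fun g => (Algebra.smul_def c (F g)).symm

variable (k G R) in
/-- the right action -/
def bfr : Rᵐᵒᵖ →ₐ[k] Module.End k (BF G R) where
  toFun s :=
    { toFun := fun F g => F g * (g • s.unop)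
      map_add' := fun F F' => funext fun g => add_mul (F g) (F' g) _
      map_smul' := fun c F => funext fun g => smul_mul_assoc c (F g) _ }
  map_one' := LinearMap.ext fun F => funext fun g => by
    change F g * (g • (1 : R)) = F g
    rw [smul_one, mul_one]
  map_mul' r s := LinearMap.ext fun F => funext fun g => by
    change F g * (g • (s.unop * r.unop)) = F g * (g • s.unop) * (g • r.unop)
    rw [smul_mul', mul_assoc]
  map_zero' := LinearMap.ext fun F => funext fun g => by
    change F g * (g • (0 : R)) = 0
    rw [smul_zero, mul_zero]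
  map_add' r s := LinearMap.ext fun F => funext fun g => by
    change F g * (g • (r.unop + s.unop)) = F g * (g • r.unop) + F g * (g • s.unop)
    rw [smul_add, mul_add]
  commutes' c := LinearMap.ext fun F => funext fun g => by
    change F g * (g • algebraMap k R c) = c • F g
    rw [Algebra.algebraMap_eq_smul_one, smul_comm, smul_one, mul_smul_comm, mul_one]

variable (k G R) in
/-- the action of `Γ` on functions -/
noncomputable def bfg : Gam k R →ₐ[k] Module.End k (BF G R) :=
  Algebra.TensorProduct.lift (bfl k G R) (bfr k G R) fun r s =>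
    LinearMap.ext fun F => funext fun g => (mul_assoc r (F g) (g • s.unop)).symm

noncomputable instance : Module (Gam k R) (BF G R) :=
  Module.compHom (BF G R) (bfg k G R).toRingHom

theorem bf_smul (r s : R) (F : BF G R) (g : G) :
    ((r ⊗ₜ MulOpposite.op s : Gam k R) • F) g = r * F g * (g • s) := by
  change (bfg k G R (r ⊗ₜ MulOpposite.op s)) F g = _
  unfold bfg
  rw [Algebra.TensorProduct.lift_tmul]
  change r * (F g * (g • s)) = _
  rw [mul_assoc]

instance : IsScalarTower k (Gam k R) (BF G R) where
  smul_assoc c x F := by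
    change (bfg k G R (c • x)) F = c • (bfg k G R x) F
    rw [map_smul]
    rfl

variable {D : RedGroup k G} {v : Type} [Fintype v] [DecidableEq v]

/-- the matrix coefficient `g ↦ V(g)_ij` -/
def cf (R : Type) [Ring R] [Algebra k R] (V : MRep D v) (i j : v) : BF G R :=
  fun g => algebraMap k R (V.m g i j)

/-- the module of matrix coefficients of `V` -/
noncomputable def BV (R : Type) [Ring R] [Algebra k R] [MulSemiringAction G R]
    [SMulCommClass G k R] (V : MRep D v) : Submodule (Gam k R) (BF G R) :=
  Submodule.span (Gam k R) {F | ∃ i j, F = cf R V i j}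

/-- the module of matrix coefficients of `V`, as a type -/
def BM (R : Type) [Ring R] [Algebra k R] [MulSemiringAction G R] [SMulCommClass G k R]
    (V : MRep D v) : Type := BV R V

variable (V : MRep D v)

noncomputable instance : AddCommGroup (BM R V) := inferInstanceAs (AddCommGroup (BV R V))

noncomputable instance : Module k (BM R V) := inferInstanceAs (Module k (BV R V))

noncomputable instance : Module (Gam k R) (BM R V) := inferInstanceAs (Module (Gam k R) (BV R V))

instance : IsScalarTower k (Gam k R) (BM R V) :=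
  inferInstanceAs (IsScalarTower k (Gam k R) (BV R V))

variable {V}

/-- the function `G → R` given by an element of `BM R V` -/
def BM.fn (F : BM R V) : BF G R := Subtype.val F

theorem BM.ext {F F' : BM R V} (h : F.fn = F'.fn) : F = F' := Subtype.ext h

theorem BM.add_fn (F F' : BM R V) : (F + F').fn = F.fn + F'.fn := rfl

theorem BM.smul_fn (c : Gam k R) (F : BM R V) : (c • F).fn = c • F.fn := rfl

theorem BM.smulk_fn (c : k) (F : BM R V) : (c • F).fn = c • F.fn := rfl

theorem BM.zero_fn : (0 : BM R V).fn = 0 := rfl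

theorem BM.mem (F : BM R V) : F.fn ∈ BV R V := Subtype.property F

end bf

end Pool.Agent.Helper44.HD
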