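import Pool.Agent.Helper44.HD.BasicH
import Pool.Agent.Helper44.HD.DefsQ

/-!
# Project HD (MP_e5f486_ag), definitions C: Hochschild chains, corner embeddings
-/

set_option autoImplicit false
set_option linter.unusedSectionVars false

open Finset
open scoped TensorProduct

namespace Pool.Agent.Helper44.HD

section chains

variable (k : Type) {A C : Type} [Field k] [Ring A] [Algebra k A] [AddCommGroup C] [Module k C]

/-- Hochschild chains of degree `n`: the tensor power `A ⊗ A ⊗ ... ⊗ A` (`n + 1` factors) -/
abbrev HC (A : Type) [Ring A] [Algebra k A] (n : ℕ) : Type :=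
  PiTensorProduct k fun _ : Fin (n + 1) => A

/-- the pure tensor `x_0 ⊗ ... ⊗ x_n` -/
noncomputable def tp (n : ℕ) (x : ℕ → A) : HC k A n :=
  PiTensorProduct.tprod k fun i : Fin (n + 1) => x i

/-- extension of a tuple by zero -/
def xt {n : ℕ} (x : Fin n → A) : ℕ → A := fun i => if h : i < n then x ⟨i, h⟩ else 0

theorem xt_update {n : ℕ} (x : Fin n → A) (i : Fin n) (a : A) :
    xt (Function.update x i a) = Function.update (xt x) i a := by
  funext j
  unfold xt
  by_cases hj : j < n
  · rw [dif_pos hj]
    by_cases hij : (⟨j, hj⟩ : Fin n) = i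
    · subst hij
      simp
    · have h2 : j ≠ (i : ℕ) := fun e => hij (Fin.ext e)
      rw [Function.update_of_ne hij, Function.update_of_ne h2, dif_pos hj]
  · have h2 : j ≠ (i : ℕ) := fun e => hj (e ▸ i.2)
    rw [dif_neg hj, Function.update_of_ne h2, dif_neg hj]

theorem tp_coch (n : ℕ) : Coch k n (tp k n : (ℕ → A) → HC k A n) := by
  have e : ∀ (x : ℕ → A) (i : ℕ) (hi : i ≤ n) (a : A),
      (fun j : Fin (n + 1) => Function.update x i a j) =
        Function.update (fun j : Fin (n + 1) => x j) ⟨i, by omega⟩ a := by
    intro x i hi a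
    funext j
    by_cases hj : j = ⟨i, by omega⟩
    · subst hj
      simp
    · have h2 : (j : ℕ) ≠ i := fun e => hj (Fin.ext e)
      rw [Function.update_of_ne hj, Function.update_of_ne h2]
  refine ⟨fun x y h => ?_, fun x i a b hi => ?_, fun x i c a hi => ?_⟩
  · unfold tp
    congr 1
    funext j
    exact h j (by omega)
  · unfold tp
    rw [e x i hi, e x i hi, e x i hi]
    exact MultilinearMap.map_update_add _ _ _ _ _
  · unfold tp
    rw [e x i hi, e x i hi]
    exact MultilinearMap.map_update_smul _ _ _ _ _

variable {k}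

/-- the linear map on chains defined by a multilinear function -/
noncomputable def Coch.lin {n : ℕ} {φ : (ℕ → A) → C} (h : Coch k n φ) : HC k A n →ₗ[k] C :=
  PiTensorProduct.lift
    { toFun := fun x => φ (xt x)
      map_update_add' := by
        intro inst x i a b
        have e : inst = instDecidableEqFin (n + 1) := Subsingleton.elim _ _
        subst e
        simp only [xt_update]
        exact h.add _ _ _ _ (by omega)
      map_update_smul' := by
        intro inst x i c a
        have e : inst = instDecidableEqFin (n + 1) := Subsingleton.elim _ _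
        subst e
        simp only [xt_update]
        exact h.smul _ _ _ _ (by omega) }

theorem Coch.lin_tp {n : ℕ} {φ : (ℕ → A) → C} (h : Coch k n φ) (x : ℕ → A) :
    h.lin (tp k n x) = φ x := by
  unfold Coch.lin tp
  rw [PiTensorProduct.lift.tprod]
  refine h.dep _ _ fun i hi => ?_
  have h2 : i < n + 1 := by omega
  simp only [xt]
  rw [dif_pos h2]

/-- two linear maps on chains which agree on pure tensors are equal -/
theorem HC_ext {n : ℕ} {f g : HC k A n →ₗ[k] C} (h : ∀ x : ℕ → A, f (tp k n x) = g (tp k n x)) :
    f = g := by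
  apply PiTensorProduct.ext
  apply MultilinearMap.ext
  intro x
  have h1 := h (xt x)
  have e : tp k n (xt x) = PiTensorProduct.tprod k x := by
    unfold tp
    congr 1
    funext i
    have h2 : (i : ℕ) < n + 1 := i.2
    simp only [xt]
    rw [dif_pos h2]
  rw [e] at h1
  exact h1

variable (k)

/-- the Hochschild boundary of `x_0 ⊗ ... ⊗ x_{n+1}` -/
noncomputable def bch (n : ℕ) (x : ℕ → A) : HC k A n :=
  ∑ j ∈ range (n + 1), (-1 : k) ^ j • tp k n (ct j x) + (-1 : k) ^ (n + 1) • tp k n (cy (n + 1) x)

theorem bch_coch (n : ℕ) : Coch k (n + 1) (bch k n : (ℕ → A) → HC k A n) := by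
  unfold bch
  refine Coch.addc (Coch.sumc _ _ fun j hj => ?_) ?_
  · have hj' : j < n + 1 := mem_range.1 hj
    refine Coch.smulc ?_ _
    refine (tp_coch k n).subst (ct j) (fun i => if i ≤ j then i else i - 1) ?_ ?_ ?_ ?_ ?_
    · intro i hi
      split_ifs <;> omega
    · intro x y h i hi
      simp only [ct]
      split_ifs
      · exact h _ (by omega)
      · rw [h _ (by omega), h _ (by omega)]
      · exact h _ (by omega)
    · intro x l a b hl i hi hil
      simp only [ct]
      split_ifs at hil ⊢ <;>
      (try rw [Function.update_of_ne (by omega), Function.update_of_ne (by omega)]) <;>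
      (try rw [Function.update_of_ne (by omega), Function.update_of_ne (by omega)])
    · intro x l a b hl
      simp only [ct]
      split_ifs with h1 h2 h3 h4 h5
      · simp
      · have : l = j := h3
        subst this
        simp [add_mul]
      · omega
      · omega
      · have : l = j + 1 := by omega
        subst this
        simp [mul_add]
      · have : l - 1 + 1 = l := by omega
        rw [this]
        simp
    · intro x l c a hl
      simp only [ct]
      split_ifs with h1 h2 h3 h4 h5
      · simp
      · have : l = j := h3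
        subst this
        simp
      · omega
      · omega
      · have : l = j + 1 := by omega
        subst this
        simp
      · have : l - 1 + 1 = l := by omega
        rw [this]
        simp
  · refine Coch.smulc ?_ _
    refine (tp_coch k n).subst (cy (n + 1)) (fun i => if i = n + 1 then 0 else i) ?_ ?_ ?_ ?_ ?_
    · intro i hi
      split_ifs <;> omega
    · intro x y h i hi
      simp only [cy]
      split_ifs
      · rw [h _ (by omega), h _ (by omega)]
      · exact h _ (by omega)
    · intro x l a b hl i hi hil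
      simp only [cy]
      split_ifs at hil ⊢ <;>
      (try rw [Function.update_of_ne (by omega), Function.update_of_ne (by omega)]) <;>
      (try rw [Function.update_of_ne (by omega), Function.update_of_ne (by omega)])
    · intro x l a b hl
      simp only [cy]
      by_cases h1 : l = n + 1
      · subst h1
        simp [add_mul]
      · by_cases h2 : l = 0
        · subst h2
          simp [mul_add]
        · simp [h1, h2]
    · intro x l c a hl
      simp only [cy]
      by_cases h1 : l = n + 1
      · subst h1
        simp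
      · by_cases h2 : l = 0
        · subst h2
          simp
        · simp [h1, h2]

/-- the Hochschild boundary `C_{n+1} → C_n` of the algebra `A`,
`x_0 ⊗ ... ⊗ x_{n+1} ↦ ∑_{j ≤ n} (-1)^j (.. ⊗ x_j x_{j+1} ⊗ ..) + (-1)^(n+1) (x_{n+1} x_0 ⊗ x_1 ⊗ .. ⊗ x_n)` -/
noncomputable def bc (A : Type) [Ring A] [Algebra k A] (n : ℕ) : HC k A (n + 1) →ₗ[k] HC k A n :=
  (bch_coch k n).lin

theorem bc_tp (n : ℕ) (x : ℕ → A) : bc k A n (tp k (n + 1) x) = bch k n x :=
  (bch_coch k n).lin_tp x

/-- the map induced on chains by a linear map -/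
noncomputable def HCmap {A B : Type} [Ring A] [Algebra k A] [Ring B] [Algebra k B] (f : A →ₗ[k] B)
    (n : ℕ) : HC k A n →ₗ[k] HC k B n :=
  PiTensorProduct.map fun _ => f

theorem HCmap_tp {A B : Type} [Ring A] [Algebra k A] [Ring B] [Algebra k B] (f : A →ₗ[k] B)
    (n : ℕ) (x : ℕ → A) : HCmap k f n (tp k n x) = tp k n fun i => f (x i) := by
  unfold HCmap tp
  rw [PiTensorProduct.map_tprod]

end chains

section corner

variable {k G : Type} [Field k] [Group G] {D : RedGroup k G}
variable {R : Type} [Ring R] [Algebra k R] [MulSemiringAction G R] [SMulCommClass G k R]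
variable {v w : Type} [Fintype v] [DecidableEq v] [Fintype w] [DecidableEq w]

/-- the corner embedding `a ↦ diag(a, 0)`, `E(V) → E(V ⊕ W)` -/
def cor {V : MRep D v} (W : MRep D w) (a : EE R V) : EE R (V.sum W) :=
  ⟨Matrix.fromBlocks a.1 0 0 0, by
    have ha : ∀ (g : G) (i : v) (j : v), ∑ l, V.m g i l • (g • a.1 l j) =
      ∑ b, V.m g b j • a.1 i b := a.2
    intro g i j
    rcases i with i | i <;> rcases j with j | j <;>
      simp [MRep.sum, Fintype.sum_sum_type, ha g]⟩

theorem cor_mul {V : MRep D v} (W : MRep D w) (a b : EE R V) :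
    cor W (a * b) = cor W a * cor W b := by
  apply Subtype.ext
  change Matrix.fromBlocks (a.1 * b.1) 0 0 0 =
    Matrix.fromBlocks a.1 0 0 0 * Matrix.fromBlocks b.1 0 0 (0 : Matrix w w R)
  rw [Matrix.fromBlocks_multiply]
  simp

/-- the corner embedding as a linear map -/
def corL {V : MRep D v} (W : MRep D w) : EE R V →ₗ[k] EE R (V.sum W) where
  toFun := cor W
  map_add' a b := by
    apply Subtype.ext
    change Matrix.fromBlocks (a.1 + b.1) 0 0 0 =
      Matrix.fromBlocks a.1 0 0 0 + Matrix.fromBlocks b.1 0 0 (0 : Matrix w w R)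
    rw [Matrix.fromBlocks_add]
    simp
  map_smul' c a := by
    apply Subtype.ext
    change Matrix.fromBlocks (c • a.1) 0 0 0 =
      c • Matrix.fromBlocks a.1 0 0 (0 : Matrix w w R)
    rw [Matrix.fromBlocks_smul]
    simp

end corner

/-! ## The embedding `E(V) → E(W)` for a direct summand `V` of `W` -/

section ret

variable {k G : Type} [Field k] [Group G] {D : RedGroup k G}
variable {R : Type} [Ring R] [Algebra k R] [MulSemiringAction G R] [SMulCommClass G k R]
variable {v w : Type} [Fintype v] [DecidableEq v] [Fintype w] [DecidableEq w]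

/-- `V` as a direct summand of `W` -/
structure RetD (V : MRep D v) (W : MRep D w) where
  a : Matrix w v k
  b : Matrix v w k
  ha : ∀ g, W.m g * a = a * V.m g
  hb : ∀ g, V.m g * b = b * W.m g
  ba : b * a = 1

theorem RetD.retr {V : MRep D v} {W : MRep D w} (r : RetD V W) : Retr V W :=
  ⟨r.a, r.b, r.ha, r.hb, r.ba⟩

/-- a scalar matrix which commutes with `G` is equivariant -/
theorem map_mem_Hm {V : MRep D v} {W : MRep D w} {a : Matrix w v k}
    (h : ∀ g, W.m g * a = a * V.m g) : a.map (algebraMap k R) ∈ Hm R V W := by
  intro g i j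
  have h1 := congrArg (algebraMap k R) (congrFun (congrFun (h g) i) j)
  simp only [Matrix.mul_apply, map_sum, map_mul] at h1
  have e1 : ∀ l, W.m g i l • (g • (a.map (algebraMap k R)) l j) =
      algebraMap k R (W.m g i l) * algebraMap k R (a l j) := by
    intro l
    rw [Matrix.map_apply, Algebra.algebraMap_eq_smul_one (a l j), smul_comm g, smul_one,
      ← Algebra.algebraMap_eq_smul_one, Algebra.smul_def]
  have e2 : ∀ l, V.m g l j • (a.map (algebraMap k R)) i l =
      algebraMap k R (a i l) * algebraMap k R (V.m g l j) := by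
    intro l
    rw [Matrix.map_apply, Algebra.smul_def, Algebra.commutes]
  simp only [e1, e2]
  exact h1

/-- the (non-unital) embedding `x ↦ a x b` of `E(V)` in `E(W)` -/
noncomputable def RetD.emb {V : MRep D v} {W : MRep D w} (r : RetD V W) :
    EE R V →ₗ[k] EE R W where
  toFun x := ⟨r.a.map (algebraMap k R) * x.1 * r.b.map (algebraMap k R),
    Hm_mul (Hm_mul (map_mem_Hm r.ha) x.2) (map_mem_Hm r.hb)⟩
  map_add' x y := by
    apply Subtype.ext
    change r.a.map (algebraMap k R) * (x.1 + y.1) * r.b.map (algebraMap k R) =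
      r.a.map (algebraMap k R) * x.1 * r.b.map (algebraMap k R) +
        r.a.map (algebraMap k R) * y.1 * r.b.map (algebraMap k R)
    rw [Matrix.mul_add, Matrix.add_mul]
  map_smul' c x := by
    apply Subtype.ext
    change r.a.map (algebraMap k R) * (c • x.1) * r.b.map (algebraMap k R) =
      c • (r.a.map (algebraMap k R) * x.1 * r.b.map (algebraMap k R))
    rw [Matrix.mul_smul, Matrix.smul_mul]

theorem RetD.emb_apply {V : MRep D v} {W : MRep D w} (r : RetD V W) (x : EE R V) :
    (r.emb x).1 = r.a.map (algebraMap k R) * x.1 * r.b.map (algebraMap k R) := rfl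

theorem RetD.emb_mul {V : MRep D v} {W : MRep D w} (r : RetD V W) (x y : EE R V) :
    r.emb (x * y) = r.emb x * r.emb y := by
  have h : r.b.map (algebraMap k R) * r.a.map (algebraMap k R) = 1 := by
    rw [← Matrix.map_mul, r.ba, Matrix.map_one _ (map_zero _) (map_one _)]
  apply Subtype.ext
  change r.a.map (algebraMap k R) * (x.1 * y.1) * r.b.map (algebraMap k R) =
    (r.a.map (algebraMap k R) * x.1 * r.b.map (algebraMap k R)) *
      (r.a.map (algebraMap k R) * y.1 * r.b.map (algebraMap k R))
  calc r.a.map (algebraMap k R) * (x.1 * y.1) * r.b.map (algebraMap k R)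
      = r.a.map (algebraMap k R) * (x.1 * 1 * y.1) * r.b.map (algebraMap k R) := by
        rw [Matrix.mul_one]
    _ = _ := by
        rw [← h]
        simp only [Matrix.mul_assoc]

end ret

/-! ## The category of the modules `R ⊗ V` and its cyclic words -/

section cat

variable {k G : Type} [Field k] [Group G]

/-- the objects: rational representations `x.2` on `k^n`, `n = x.1` -/
def Ob (D : RedGroup k G) : Type := Σ n : ℕ, MRep D (Fin n)

/-- coordinates of the direct sum of all `R ⊗ V` -/
abbrev Ix (D : RedGroup k G) : Type := Σ x : Ob D, Fin x.1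

/-- `k`-linear endomorphisms of the direct sum `𝓟` of all `R ⊗ V` -/
abbrev Amb (D : RedGroup k G) (R : Type) [Ring R] [Algebra k R] : Type :=
  Module.End k (Ix D →₀ R)

variable {D : RedGroup k G} {R : Type} [Ring R] [Algebra k R]

/-- a matrix over `R` as a map from the summand `R ⊗ y` to the summand `R ⊗ x` of `𝓟` -/
noncomputable def em (x y : Ob D) : Matrix (Fin x.1) (Fin y.1) R →ₗ[k] Amb D R where
  toFun A := ∑ i, ∑ j, Finsupp.lsingle (⟨x, i⟩ : Ix D) ∘ₗ LinearMap.mulLeft k (A i j) ∘ₗ
    Finsupp.lapply (⟨y, j⟩ : Ix D)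
  map_add' A B := by
    rw [← sum_add_distrib]
    refine sum_congr rfl fun i _ => ?_
    rw [← sum_add_distrib]
    refine sum_congr rfl fun j _ => ?_
    ext
    simp [add_mul]
  map_smul' c A := by
    rw [RingHom.id_apply, smul_sum]
    refine sum_congr rfl fun i _ => ?_
    rw [smul_sum]
    refine sum_congr rfl fun j _ => ?_
    ext
    simp

variable (R) [MulSemiringAction G R] [SMulCommClass G k R]

/-- the morphisms `R ⊗ y → R ⊗ x` -/
noncomputable def hom (x y : Ob D) : Submodule k (Amb D R) := (Hm R y.2 x.2).map (em x y)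

/-- Hochschild chains of degree `q` of the category of the `R ⊗ V`: the span of the
`a_0 ⊗ a_1 ⊗ ... ⊗ a_q`, `a_i ∈ Hom(R ⊗ x_{i+1}, R ⊗ x_i)`, `x_{q+1} = x_0` -/
noncomputable def Cyc (D : RedGroup k G) (q : ℕ) : Submodule k (HC k (Amb D R) q) :=
  Submodule.span k {z | ∃ (x : ℕ → Ob D) (a : ℕ → Amb D R),
    (∀ i, i ≤ q → a i ∈ hom R (x i) (x (i + 1))) ∧ x (q + 1) = x 0 ∧ z = tp k q a}

end cat

/-! ## `R` as a module over `R ⊗ Rᵒᵖ` -/

section bimod

/-- the bimodule `R` -/
def RBi (R : Type) : Type := R

variable (k R : Type) [Field k] [Ring R] [Algebra k R]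

instance : AddCommGroup (RBi R) := inferInstanceAs (AddCommGroup R)

instance : Module k (RBi R) := inferInstanceAs (Module k R)

variable {R}

/-- an element of `R` as an element of the bimodule `R` -/
def toB (x : R) : RBi R := x

/-- left multiplication -/
def rbl : R →ₐ[k] Module.End k (RBi R) := Algebra.lmul k R

/-- right multiplication -/
def rbr : Rᵐᵒᵖ →ₐ[k] Module.End k (RBi R) where
  toFun s :=
    { toFun := fun x : R => toB (x * s.unop)
      map_add' := fun x y : R => add_mul x y s.unop
      map_smul' := fun c (x : R) => smul_mul_assoc c x s.unop }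
  map_one' := LinearMap.ext fun x : R => mul_one x
  map_mul' r s := LinearMap.ext fun x : R => (mul_assoc x s.unop r.unop).symm
  map_zero' := LinearMap.ext fun x : R => mul_zero x
  map_add' r s := LinearMap.ext fun x : R => mul_add x r.unop s.unop
  commutes' c := LinearMap.ext fun x : R => by
    change x * algebraMap k R c = c • x
    rw [Algebra.smul_def, Algebra.commutes]

variable (R) in
/-- the action of `R ⊗ Rᵒᵖ` on `R` -/
noncomputable def rba : Gam k R →ₐ[k] Module.End k (RBi R) :=
  Algebra.TensorProduct.lift (rbl k) (rbr k) fun r s =>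
    LinearMap.ext fun x : R => (mul_assoc r x s.unop).symm

/-- `(r ⊗ s) x = r x s` -/
noncomputable instance : Module (Gam k R) (RBi R) :=
  Module.compHom (RBi R) (rba k R).toRingHom

theorem rbi_smul (r s x : R) :
    (r ⊗ₜ MulOpposite.op s : Gam k R) • toB x = toB (r * x * s) := by
  change (rba k R (r ⊗ₜ MulOpposite.op s)) (toB x) = _
  unfold rba
  rw [Algebra.TensorProduct.lift_tmul]
  change r * (x * s) = r * x * s
  rw [mul_assoc]

instance : IsScalarTower k (Gam k R) (RBi R) where
  smul_assoc c x F := by
    change (rba k R (c • x)) F = c • (rba k R x) F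
    rw [map_smul]
    rfl

end bimod

end Pool.Agent.Helper44.HD
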