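import Mathlib

/-!
# Project HD (MP_e5f486_ag), definitions H: Hochschild cochains with values in the dual

An `n`-cochain of a `k`-algebra `A` (with values in the dual of `A`) is a `k`-valued function `φ` of a
sequence `x : ℕ → A` which depends only on `x 0, ..., x n` and is `k`-linear in each of them (`Coch n φ`), that
is, a linear form on the `(n+1)`-st tensor power of `A`.  Its coboundary is `dl n φ`, the composition of `φ` with
the Hochschild boundary.
-/

set_option autoImplicit false

open Finset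

namespace Pool.Agent.Helper44.HD

/-- `(x_0, .., x_j x_{j+1}, ..)` -/
def ct {A : Type} [Mul A] (j : ℕ) (x : ℕ → A) : ℕ → A := fun i =>
  if i < j then x i else if i = j then x j * x (j + 1) else x (i + 1)

/-- `(x_m x_0, x_1, x_2, ..)` -/
def cy {A : Type} [Mul A] (m : ℕ) (x : ℕ → A) : ℕ → A := fun i =>
  if i = 0 then x m * x 0 else x i

/-- the coboundary of the `n`-cochain `φ`, a function of `x_0, ..., x_{n+1}` -/
def dl {k A : Type} [Field k] [Mul A] (n : ℕ) (φ : (ℕ → A) → k) : (ℕ → A) → k := fun x =>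
  ∑ j ∈ range (n + 1), (-1) ^ j * φ (ct j x) + (-1) ^ (n + 1) * φ (cy (n + 1) x)

/-- `φ` depends on `x_0, ..., x_n` only and is linear in each of them -/
structure Coch (k : Type) {A C : Type} [Field k] [AddCommGroup A] [Module k A] [AddCommGroup C]
    [Module k C] (n : ℕ) (φ : (ℕ → A) → C) : Prop where
  dep : ∀ x y : ℕ → A, (∀ i, i ≤ n → x i = y i) → φ x = φ y
  add : ∀ (x : ℕ → A) (i : ℕ) (a b : A), i ≤ n → φ (Function.update x i (a + b)) =
    φ (Function.update x i a) + φ (Function.update x i b)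
  smul : ∀ (x : ℕ → A) (i : ℕ) (c : k) (a : A), i ≤ n → φ (Function.update x i (c • a)) =
    c • φ (Function.update x i a)

/-- cocycles of degree `n` -/
def Cocy {k A : Type} [Field k] [Ring A] [Algebra k A] (n : ℕ) (φ : (ℕ → A) → k) : Prop :=
  Coch k n φ ∧ ∀ x, dl n φ x = 0

/-- `φ` (of degree `n + 1`) is the coboundary of an `n`-cochain -/
def Cob {k A : Type} [Field k] [Ring A] [Algebra k A] (n : ℕ) (φ : (ℕ → A) → k) : Prop :=
  ∃ ψ : (ℕ → A) → k, Coch k n ψ ∧ ∀ x, φ x = dl n ψ x

/-- the trace form: the `n`-cochain of the matrix algebra `M_κ(E)` defined by the `n`-cochain `φ` of `E`,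
`(x_0, ..., x_n) ↦ ∑ φ((x_0)_{ι_0 ι_1}, (x_1)_{ι_1 ι_2}, ..., (x_n)_{ι_n ι_0})` -/
def tc {k E κ : Type} [Field k] [Fintype κ] (n : ℕ) (φ : (ℕ → E) → k) :
    (ℕ → Matrix κ κ E) → k := fun x =>
  ∑ ι : Fin (n + 1) → κ, φ fun j => x j (ι (Fin.ofNat (n + 1) j)) (ι (Fin.ofNat (n + 1) (j + 1)))

/-- a right action of `A` on the left `E`-module `N` by `E`-linear maps: `N` is an `(E, A)`-bimodule -/
structure RAct (k E A N : Type) [Field k] [Ring E] [Algebra k E] [Ring A] [Algebra k A]
    [AddCommGroup N] [Module k N] [Module E N] [IsScalarTower k E N] where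
  r : A → N →ₗ[E] N
  add : ∀ a b x, r (a + b) x = r a x + r b x
  smul : ∀ (c : k) a x, r (c • a) x = c • r a x
  mul : ∀ a b x, r (a * b) x = r b (r a x)
  one : ∀ x, r 1 x = x

/-- the matrix of an `E`-linear map of free left modules (row vectors): `f x = x ᵥ* mx f` -/
def mx {E κ κ' : Type} [Ring E] [DecidableEq κ] (f : (κ → E) →ₗ[E] (κ' → E)) :
    Matrix κ κ' E := fun a b => f (Pi.single a 1) b

/-- the cochain of `A` defined by the cochain `φ` of `E` and the bimodule `N`, realized as a direct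
summand `p ∘ i = 1` of the free `E`-module `κ → E` -/
def TF {k E A N κ : Type} [Field k] [Ring E] [Algebra k E] [Ring A] [Algebra k A]
    [AddCommGroup N] [Module k N] [Module E N] [IsScalarTower k E N] [Fintype κ] [DecidableEq κ]
    (n : ℕ) (φ : (ℕ → E) → k) (X : RAct k E A N) (i : N →ₗ[E] (κ → E)) (p : (κ → E) →ₗ[E] N) :
    (ℕ → A) → k :=
  fun x => tc n φ fun j => mx (i ∘ₗ X.r (x j) ∘ₗ p)

/-- the class of the bimodule is zero in positive degrees: all cocycles of positive degree of `E` give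
coboundaries of `A` -/
def CZ {k E A N : Type} [Field k] [Ring E] [Algebra k E] [Ring A] [Algebra k A]
    [AddCommGroup N] [Module k N] [Module E N] [IsScalarTower k E N] (X : RAct k E A N) : Prop :=
  ∀ (κ : Type) [Fintype κ] [DecidableEq κ] (i : N →ₗ[E] (κ → E)) (p : (κ → E) →ₗ[E] N),
    (∀ x, p (i x) = x) → ∀ (n : ℕ) (φ : (ℕ → E) → k), Cocy (n + 1) φ →
      Cob n (TF (n + 1) φ X i p)

end Pool.Agent.Helper44.HD
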