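import Pool.Agent.Helper44.HD.BasicH

/-!
# Project HD (MP_e5f486_ag), goals H: functoriality of Hochschild cocycles for bimodules

Definitions: `Pool/Agent/Helper44/HD/DefsH.lean`.  Basic lemmas (use them): `Pool/Agent/Helper44/HD/BasicH.lean`
(`Coch.subst` is the general lemma that a substitution of variables gives a cochain; `Coch.comp`, `Coch.addc`,
`Cob.comp`, `Cocy.comp`, `dl_comp`, `mx_comp`, `rl_mul`, ...).
-/

set_option autoImplicit false

open Finset

namespace Pool.Agent.Helper44.HD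

/-- PACKET TR (the trace form commutes with the coboundary).
Proof.  `tc n φ` is a cochain: `Coch.sumc`, and for each `ι` `Coch.comp` with the linear maps
`M ↦ M (ι j) (ι (j+1))`.
Coboundary: for `j ≤ n`, `tc n φ (ct j x) = ∑_ι φ(entries of ct j x along ι)`; the `l`-th entry is
`(x l)(ι_l, ι_{l+1})` for `l < j`, `(x j * x (j+1))(ι_j, ι_{j+1}) = ∑_c x_j(ι_j, c) x_{j+1}(c, ι_{j+1})` for `l = j`
(`Coch.update_sum`: move the sum over `c` out of `φ`), `(x (l+1))(ι_l, ι_{l+1})` for `l > j`.  The pairs `(ι, c)`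
correspond to the functions `ι' : Fin (n+2) → κ` with `c` inserted in place `j + 1`
(`Fin.insertNthEquiv` or `Fin.succAbove`), and the term is `φ (ct j y)`, `y` the entries of `x` along `ι'`
(for `j = n` the entry `x_{n+1}(c, ι_0)` is `x_{n+1}(ι'_{n+1}, ι'_0)`, as it should be).  For the cyclic face
`(x_{n+1} x_0)(ι_0, ι_1) = ∑_c x_{n+1}(ι_0, c) x_0(c, ι_1)`, and `ι' = (c, ι_1, .., ι_n, ι_0)`.
(It may be convenient to compare both sides as sums over `ι' : Fin (n+2) → κ`, fixing for each `j` the equivalence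
`(Fin (n+1) → κ) × κ ≃ (Fin (n+2) → κ)`.) -/
def StmtTR : Prop := ∀ (k E κ : Type) [Field k] [Ring E] [Algebra k E] [Fintype κ] (n : ℕ)
  (φ : (ℕ → E) → k), Coch k n φ →
    Coch k n (tc (κ := κ) n φ) ∧ ∀ x : ℕ → Matrix κ κ E, dl n (tc n φ) x = tc (n + 1) (dl n φ) x

/-- PACKET IN (inner automorphisms act trivially).
Proof.  Let `s j x = (x_0 g', g x_1 g', ..., g x_j g', g, x_{j+1}, ..., x_n)` (`s 0 x = (x_0 g', g, x_1, ..)`, a
sequence of `n + 2` elements; `s j x i = x 0 * g'` if `i = 0`, `g * x i * g'` if `1 ≤ i ≤ j`, `g` if `i = j + 1`,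
`x (i - 1)` if `i > j + 1`) and `H ψ x = ∑_{j ≤ n} (-1)^j ψ (s j x)` for a cochain `ψ` of degree `n + 1`; `H ψ` is an
`n`-cochain (`Coch.subst`).  Identity: for a cochain `ψ` of degree `n + 1` and `x = (x_0, .., x_{n+1})`
`dl n (H ψ) x + ∑_{j ≤ n+1} (-1)^j (dl (n+1) ψ) (s j x) = ψ x - ψ (g x g')`
(checked by computer for `n ≤ 5`).  As `dl (n+1) ψ = 0`: `ψ (g x g') - ψ x = dl n (-H ψ) x`.
Proof of the identity (faces `d_i = ct i` for `i ≤ n+1`, `d_{n+2} = cy (n+2)`; all are equalities of sequences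
in the entries `≤ n + 1`, use `Coch.dep`):
`d_0 (s 0 x) = x`; `d_{n+2} (s (n+1) x) = g x g'` (with sign `(-1)^(n+1) (-1)^(n+2) = -1`);
`d_j (s j x) = d_j (s (j-1) x)` for `1 ≤ j ≤ n + 1` (both are `(x_0 g', .., g x_{j-1} g', g x_j, x_{j+1}, ..)`;
here `g' g = 1` is used for `d_j (s j x)`), these cancel;
`d_i (s j x) = s (j-1) (d_i x)` for `i < j`, and `d_i (s j x) = s j (d_{i-1} x)` for `j + 1 < i ≤ n + 1`;
`d_{n+2} (s j x) = s j (d_{n+1} x)` for `j ≤ n`, where `d_{n+1} x = cy (n+1) x`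
(first entry `x_{n+1} x_0 g'` on both sides).  With the signs these cancel against `dl n (H ψ) x`. -/
def StmtIN : Prop := ∀ (k B : Type) [Field k] [Ring B] [Algebra k B] (g g' : B), g * g' = 1 →
  g' * g = 1 → ∀ (n : ℕ) (ψ : (ℕ → B) → k), Cocy (n + 1) ψ →
    Cob n fun x : ℕ → B => (ψ fun i => g * x i * g') - ψ x

/-- PACKET EQ (two realizations of a bimodule give cohomologous cochains; from TR, IN).
Proof.  Let `e = i p`, `e' = i' p'` (idempotent endomorphisms of `κ → E`, `κ' → E`), `u = i' p`, `v = i p'`, and `g` the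
endomorphism `g (x, y) = (x - e x + v y, u x + y - e' y)` of `κ ⊕ κ' → E`.  From `p i = 1`, `p' i' = 1`:
`e v = v`, `v u = e`, `v e' = v`, `e' u = u`, `u e = u`, `u v = e'`, so `g g = 1`.  Let `F a = i r_a p` on the
first summand and `0` on the second, `F' a = 0` on the first and `i' r_a p'` on the second.  Then
`g (F a) g = F' a`: `F a (g (x, y)) = (i r_a (p x - p x + p' y), 0) = (i r_a p' y, 0)`, and
`g (z, 0) = (z - e z, u z) = (0, i' r_a p' y)` for `z = i r_a p' y`.  In matrices (`mx_comp`):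
`G * G = 1`, `G * Fh a * G = Fh' a` with `G = mx g`, `Fh a = fromBlocks (ρ a) 0 0 0`, `Fh' a = fromBlocks 0 0 0 (ρ' a)`,
`ρ a = mx (i r_a p)`, `ρ' a = mx (i' r_a p')`.  `Fh` is multiplicative and linear (`rl_mul`, `rl_add`, `rl_smul`).
Let `ψ = tc (n+1) φ` on `M_{κ ⊕ κ'}(E)`; it is a cocycle by TR.  IN for `g = g' = G` gives a coboundary on
`M_{κ ⊕ κ'}(E)`; pull it back along `Fh` (`Cob.comp`).  Finally `tc (n+1) φ (Fh ∘ x) = tc (n+1) φ (ρ ∘ x)`: in the sum over
`ι : Fin (n+2) → κ ⊕ κ'` the terms with some `ι_j` in `κ'` have a zero entry (`Coch.zero_entry`), the others are the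
functions to `κ`; the same for `Fh'`. -/
def StmtEQ : Prop := ∀ (k E A N κ κ' : Type) [Field k] [Ring E] [Algebra k E] [Ring A] [Algebra k A]
  [AddCommGroup N] [Module k N] [Module E N] [IsScalarTower k E N] [Fintype κ] [DecidableEq κ]
  [Fintype κ'] [DecidableEq κ'] (X : RAct k E A N)
  (i : N →ₗ[E] (κ → E)) (p : (κ → E) →ₗ[E] N) (i' : N →ₗ[E] (κ' → E)) (p' : (κ' → E) →ₗ[E] N),
  (∀ x, p (i x) = x) → (∀ x, p' (i' x) = x) → ∀ (n : ℕ) (φ : (ℕ → E) → k), Cocy (n + 1) φ →
    Cob n fun x => TF (n + 1) φ X i' p' x - TF (n + 1) φ X i p x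

/-- PACKET AD (additivity in short exact sequences `0 → N' → N → N'' → 0` of bimodules; from TR, IN).
Proof.  Let `s : N'' → N` be an `E`-linear section of `g` (`Module.projective_lifting_property`), and
`t : N → N'` with `f (t x) = x - s (g x)` (`f` is injective with range the kernel of `g`); so `t f = 1`, `t s = 0`,
`f t + s g = 1`.  Realization of `N` on `κ' ⊕ κ'' → E`: `i x = (i' (t x), i'' (g x))` (`Sum.elim`),
`p (u, v) = f (p' u) + s (p'' v)`; `p (i x) = x`.  The matrix `ρ a = mx (i r_a p)` is block triangular: on `inl, inl`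
it is `ρ' a = mx (i' r'_a p')`, on `inl, inr` it is `0`, on `inr, inl` it is `c a = mx (i' t r_a s p'')`, on
`inr, inr` it is `ρ'' a = mx (i'' r''_a p'')` (rows are the source).  For `t : k` let `ρ_t a` be the matrix with
`c a` replaced by `t • c a`.
(1) `ρ = ρ_1` is multiplicative (`rl_mul`), that is `c (a b) = c a * ρ' b + ρ'' a * c b`, and `ρ', ρ''` are
multiplicative; hence all `ρ_t` are multiplicative; all are linear in `a`.
(2) For `t ≠ 0`, `ρ_t a = g_t * ρ_1 a * g_t⁻¹`, `g_t = diagonal (1 on inl, t on inr)`.  With IN on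
`M_{κ' ⊕ κ''}(E)` for the cocycle `tc (n+1) φ` (TR), pulled back along `ρ_1` (`Cob.comp`):
`tc (n+1) φ (ρ_t ∘ x) - tc (n+1) φ (ρ_1 ∘ x)` is a coboundary.
(3) For a cochain `ψ` of degree `m` and `u, v : ℕ → B` the function `t ↦ ψ (u + t v)` is a polynomial of degree
`≤ m + 1` in `t` (replace the entries one after the other).  So for fixed `x` the function
`P(t) = tc (n+1) φ (ρ_t ∘ x)` is a polynomial of degree `≤ n + 2`, and with the Lagrange basis for the nodes
`1, .., n + 3` (`Lagrange.interpolate`, `Lagrange.sum_basis`), `λ_j` its values at `0`: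
`P(0) = ∑ λ_j P(j)`, `∑ λ_j = 1`.  So `tc φ (ρ_0 ∘ x) - tc φ (ρ_1 ∘ x) = ∑ λ_j (tc φ (ρ_j ∘ x) - tc φ (ρ_1 ∘ x))` is
a coboundary by (2) (`Cob.sumc`, `Cob.mulc`; the `λ_j` do not depend on `x`; `j ≠ 0` in `k` as `k` has
characteristic `0`).
(4) `ρ_0` is block diagonal, so `tc (n+1) φ (ρ_0 ∘ x) = tc (n+1) φ (ρ' ∘ x) + tc (n+1) φ (ρ'' ∘ x)`: in the sum over
`ι : Fin (n+2) → κ' ⊕ κ''` a function which takes values in both summands has cyclic neighbours in different summands
and gives a zero entry (`Coch.zero_entry`). -/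
def StmtAD : Prop := ∀ (k E A N' N N'' κ' κ'' : Type) [Field k] [CharZero k] [Ring E] [Algebra k E]
  [Ring A] [Algebra k A]
  [AddCommGroup N'] [Module k N'] [Module E N'] [IsScalarTower k E N']
  [AddCommGroup N] [Module k N] [Module E N] [IsScalarTower k E N]
  [AddCommGroup N''] [Module k N''] [Module E N''] [IsScalarTower k E N'']
  [Fintype κ'] [DecidableEq κ'] [Fintype κ''] [DecidableEq κ'']
  (X' : RAct k E A N') (X : RAct k E A N) (X'' : RAct k E A N'')
  (f : N' →ₗ[E] N) (g : N →ₗ[E] N''), Function.Injective f → Function.Surjective g →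
  (∀ x, g x = 0 ↔ ∃ y, f y = x) →
  (∀ a x, f (X'.r a x) = X.r a (f x)) → (∀ a x, g (X.r a x) = X''.r a (g x)) →
  Module.Projective E N'' →
  ∀ (i' : N' →ₗ[E] (κ' → E)) (p' : (κ' → E) →ₗ[E] N')
    (i'' : N'' →ₗ[E] (κ'' → E)) (p'' : (κ'' → E) →ₗ[E] N''),
    (∀ x, p' (i' x) = x) → (∀ x, p'' (i'' x) = x) →
  ∃ (i : N →ₗ[E] (κ' ⊕ κ'' → E)) (p : (κ' ⊕ κ'' → E) →ₗ[E] N), (∀ x, p (i x) = x) ∧
    ∀ (n : ℕ) (φ : (ℕ → E) → k), Cocy (n + 1) φ →
      Cob n fun x => TF (n + 1) φ X i p x - (TF (n + 1) φ X' i' p' x + TF (n + 1) φ X'' i'' p'' x)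

/-- PACKET SE (semisimple algebras).
Proof.  (a) The form `(x, y) = tr(L_{xy})`, `L_z` left multiplication by `z` (`Algebra.lmul k A`,
`LinearMap.trace`), is bilinear, symmetric (trace of a product), associative `(xy, z) = (x, yz)` and nondegenerate:
the set `{x | ∀ y, tr(L_{xy}) = 0}` is a left ideal (as `tr(L_{zxy}) = tr(L_{x y z})`); if it is not zero, it
contains an idempotent `e ≠ 0` (in a semisimple ring a left ideal is a direct summand, so generated by an idempotent), but
`tr(L_e)` is the rank of the projection `L_e`, i.e. `dim_k eA`, not zero in characteristic `0`; contradiction.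
(b) Let `x_i` be a `k`-basis of `A`, `y_i` the dual basis for the form: `(x_i, y_j) = δ_ij`.  Then
`a = ∑ (a, y_i) x_i = ∑ (a, x_i) y_i`.  For all `a`: `∑ a x_i ⊗ y_i = ∑ x_i ⊗ y_i a` in `A ⊗ A`: `a x_i = ∑_j (a x_i, y_j) x_j`
and `y_j a = ∑_i (y_j a, x_i) y_i = ∑_i (a x_i, y_j) y_i`.  And `∑ x_i y_i = 1`: for all `a`,
`tr(L_a) = ∑_i (a x_i, y_i) = tr(L_{a z})` with `z = ∑ x_i y_i`, so `(a, 1 - z) = 0` for all `a` and `z = 1`.
(c) Let `φ` be a cocycle of degree `n + 1` (arguments `a_0, .., a_{n+1}`), and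
`ψ (a_0, .., a_n) = ∑_i φ (a_0 x_i, y_i, a_1, .., a_n)`, an `n`-cochain (`Coch.subst`).  Then `φ = dl n ψ`: apply
`dl (n+1) φ = 0` to `(a_0 x_i, y_i, a_1, .., a_{n+1})` and sum over `i`.  Face `0` gives
`∑ φ (a_0 x_i y_i, a_1, ..) = φ (a_0, .., a_{n+1})`; face `1` gives `- ∑ φ (a_0 x_i, y_i a_1, a_2, ..)`
`= - ∑ φ (a_0 a_1 x_i, y_i, a_2, ..) = - ψ (a_0 a_1, a_2, ..)` by (b); the other faces give `-(-1)^j ψ` of the `j`-th face of
`(a_0, .., a_{n+1})`, the last one `(-1)^(n+2) ψ (a_{n+1} a_0, a_1, .., a_n)`.  The sum is `φ - dl n ψ = 0`. -/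
def StmtSE : Prop := ∀ (k A : Type) [Field k] [CharZero k] [Ring A] [Algebra k A]
  [FiniteDimensional k A] [IsSemisimpleRing A] (n : ℕ) (φ : (ℕ → A) → k), Cocy (n + 1) φ → Cob n φ

/-- PACKET TT (two of three; from AD, EQ).
Proof.  A finitely generated projective module has a realization (`exists_rl` in
`Pool/Agent/Helper44/HD/ExRl.lean`).  (1) `CZ X' → CZ X'' → CZ X`: choose realizations of `N'`, `N''`; AD gives a
realization `(i₀, p₀)` of `N` for which the cochain is a sum of coboundaries; EQ passes to an arbitrary realization.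
(2) `CZ X' → CZ X → CZ X''`: let `(i'', p'')` be any realization of `N''` and `(i', p')` one of `N'`; AD gives a
realization of `N` with `TF'' = TF - TF' -` coboundary. -/
def StmtTT : Prop := ∀ (k E A N' N N'' : Type) [Field k] [CharZero k] [Ring E] [Algebra k E]
  [Ring A] [Algebra k A]
  [AddCommGroup N'] [Module k N'] [Module E N'] [IsScalarTower k E N']
  [AddCommGroup N] [Module k N] [Module E N] [IsScalarTower k E N]
  [AddCommGroup N''] [Module k N''] [Module E N''] [IsScalarTower k E N'']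
  (X' : RAct k E A N') (X : RAct k E A N) (X'' : RAct k E A N'')
  (f : N' →ₗ[E] N) (g : N →ₗ[E] N''), Function.Injective f → Function.Surjective g →
  (∀ x, g x = 0 ↔ ∃ y, f y = x) →
  (∀ a x, f (X'.r a x) = X.r a (f x)) → (∀ a x, g (X.r a x) = X''.r a (g x)) →
  Module.Finite E N' → Module.Projective E N' → Module.Finite E N'' → Module.Projective E N'' →
  (CZ X' → CZ X'' → CZ X) ∧ (CZ X' → CZ X → CZ X'')

/-- PACKET BS (bimodules killed by the radical; from SE).
Proof.  `A` is artinian, so `A / J`, `J = Ring.jacobson A`, is a semisimple ring (`IsSemiprimaryRing`,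
`IsSemisimpleRing (A ⧸ Ring.jacobson A)`), finite-dimensional.  Given a realization `(i, p)` and a cocycle `φ` of degree
`n + 1` of `E`: the map `ρ a = mx (i r_a p)` is multiplicative and linear and vanishes on `J`, so it factors through
`ρb : A / J → M_κ(E)` (multiplicative, linear).  `tc (n+1) φ (ρb ∘ x)` is a cocycle on `A / J` (TR, `Cocy.comp`), hence a
coboundary by SE; pull back along `A → A / J` (`Cob.comp`). -/
def StmtBS : Prop := ∀ (k E A N : Type) [Field k] [CharZero k] [Ring E] [Algebra k E]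
  [Ring A] [Algebra k A] [FiniteDimensional k A]
  [AddCommGroup N] [Module k N] [Module E N] [IsScalarTower k E N] (X : RAct k E A N),
  (∀ a ∈ Ring.jacobson A, ∀ x, X.r a x = 0) → CZ X

/-- PACKET SU (bimodule summands of `P ⊗ U`; from TT, BS).
Here `U` is a finite-dimensional right `A`-module, given by `u : RAct k k A U`, and the bimodule `P ⊗ U` has the right
action `1 ⊗ u a` (`TensorProduct.AlgebraTensorModule.map LinearMap.id (u.r a)`).
Proof.  Induction on `dim_k U`.  Let `J = Ring.jacobson A` (nilpotent, two-sided).  If `J` acts by zero on `U`, it acts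
by zero on `N` (`i (x a) = (i x) a = 0`, `i` is injective as `p i = 1`), and `CZ X` by BS.  Otherwise let `U' = U J` (span
of the `u.r j y`, `j ∈ J`), an `A`-stable subspace, `U' ≠ 0`, and `U' ≠ U` because `J` is nilpotent; so `U'` and `U / U'`
have smaller dimension.  Let `N' = N J` (the `E`-submodule spanned by the `X.r j x`, `j ∈ J`); it is `A`-stable.
(1) `N'` is a bimodule summand of `P ⊗ U'`: let `pr : U → U'` be a `k`-linear retraction of the inclusion `inc`;
`i1 = (1 ⊗ pr) i` on `N'`, `p1 = p (1 ⊗ inc)`, which has values in `N'` (`p (y ⊗ u j) = p ((y ⊗ u) j) = (p (y ⊗ u)) j`).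
`i (x j) = (i x) j` lies in the range of `1 ⊗ inc`, so `(1 ⊗ inc) (i1 x) = i x` for `x ∈ N'`; hence `p1 i1 = 1`, and
`i1` commutes with `A` (as `1 ⊗ inc` commutes with `A` and is injective, having the left inverse `1 ⊗ pr`).
(2) `N / N'` is a bimodule summand of `P ⊗ (U / U')`: `i2` is induced by `(1 ⊗ mk) i` (it kills `N'`); with a `k`-linear
section `s : U / U' → U` of `mk` let `p2 = mk p (1 ⊗ s)`.  `1 ⊗ (s mk) - 1` has values in the range of `1 ⊗ inc`, which
`p` maps to `N'`; so `p2 i2 = 1` and `p2` commutes with `A`.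
(3) `N'` and `N / N'` are finitely generated and projective over `E` (direct summands of `P ⊗ U'`, `P ⊗ (U / U')`,
which are finite direct sums of copies of `P`: `TensorProduct` with a free `k`-module).  By induction `CZ` holds for both, so
for `N` by TT. -/
def StmtSU : Prop := ∀ (k E A N P U : Type) [Field k] [CharZero k] [Ring E] [Algebra k E]
  [Ring A] [Algebra k A] [FiniteDimensional k A]
  [AddCommGroup N] [Module k N] [Module E N] [IsScalarTower k E N]
  [AddCommGroup P] [Module k P] [Module E P] [IsScalarTower k E P]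
  [AddCommGroup U] [Module k U] [FiniteDimensional k U] (X : RAct k E A N) (u : RAct k k A U)
  (i : N →ₗ[E] TensorProduct k P U) (p : TensorProduct k P U →ₗ[E] N),
  Module.Finite E P → Module.Projective E P →
  (∀ x, p (i x) = x) →
  (∀ a x, i (X.r a x) =
    TensorProduct.AlgebraTensorModule.map (LinearMap.id : P →ₗ[E] P) (u.r a) (i x)) →
  (∀ a y, p (TensorProduct.AlgebraTensorModule.map (LinearMap.id : P →ₗ[E] P) (u.r a) y) =
    X.r a (p y)) →
  CZ X

end Pool.Agent.Helper44.HD
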