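import Pool.Agent.Helper44.HD.BasicQ
import Pool.Agent.Helper44.HD.GoalsH

/-!
# Project HD (MP_e5f486_ag), goals Q: equivariant modules

Definitions: `Pool/Agent/Helper44/HD/DefsQ.lean`.  Basic lemmas (use them): `Pool/Agent/Helper44/HD/BasicQ.lean`
(`RF_map`, `RF_bil`, `RF_mulf`, `RF_rep`, `RF_sub`, `RF_inv`, `HI_ex`, `HI_uniq`, `HI_map`, `HI_left`, `HI_const`, `HI_sum`,
`HI_mem`, `RedGroup.int`, `int_spec`, `NNmap`, `NNmap_r`, ...; they hold for `D` and for `D.pr`, the reductive structure of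
`G × G`).  `lf r = r ⊗ 1`, `rt r = 1 ⊗ r`, `lf_rt`, `mem_NN`, `smul_NN`, `NA_apply`, `smul_Hm`, `HU_apply` are in `DefsQ.lean`.
`(V.m g) (V.m g⁻¹) = 1` follows from `V.mul`, `V.one`.
-/

set_option autoImplicit false

open Finset
open scoped TensorProduct

namespace Pool.Agent.Helper44.HD

/-- `G` acts rationally on `R` -/
def RatR {k G : Type} [Field k] [Group G] (D : RedGroup k G) (R : Type) [Ring R] [Algebra k R]
    [MulSemiringAction G R] : Prop := ∀ r : R, (fun g : G => g • r) ∈ D.RF R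

/-- `Perf^G(R)` is proper -/
def PropR {k G : Type} [Field k] [Group G] (D : RedGroup k G) (R : Type) [Ring R] [Algebra k R]
    [MulSemiringAction G R] [SMulCommClass G k R] : Prop :=
  ∀ (w : Type) [Fintype w] [DecidableEq w] (W : MRep D w), FiniteDimensional k (EE R W)

/-- PACKET QS (an equivariant surjection onto a projective module splits equivariantly).
Proof.  Let `s` be a `Γ`-linear section of `q` (`Module.projective_lifting_property`).  For `m : M` the function
`F_m : p ↦ p s(p⁻¹ m)` is rational: `p⁻¹ m = ∑ f_i(p) m_i` with `f_i` regular on `G × G` (`RF_inv`, `RF_rep`), so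
`F_m(p) = ∑ f_i(p) p s(m_i)` (`RF_mulf`, `RF_sum`, `Y.rat`).  Let `t m = D.pr.int F_m`.  `t` is `Γ`-linear:
`F_{γ m}(p) = p s((p⁻¹ γ)(p⁻¹ m)) = p ((p⁻¹ γ) s(p⁻¹ m)) = γ F_m(p)` as `gm p (gm p⁻¹ γ) = γ` (check on pure
tensors), and `F_{m + m'} = F_m + F_{m'}` (`HI_map` for `γ •`, `HI_add`, `HI_uniq`).  Equivariant:
`F_{h m}(p) = p s((h⁻¹ p)⁻¹ m) = h F_m(h⁻¹ p)`, with `HI_map` for `Y.π h` and `HI_left`.  `q (t m) = m`: `q F_m(p) = p q s(p⁻¹ m) = m`
(`HI_map` for `q`, `HI_const`, `HI_uniq`). -/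
def StmtQS : Prop := ∀ (k G R M F : Type) [Field k] [Group G] [Ring R] [Algebra k R]
  [MulSemiringAction G R] [SMulCommClass G k R] (D : RedGroup k G)
  [AddCommGroup M] [Module k M] [Module (Gam k R) M] [IsScalarTower k (Gam k R) M]
  [AddCommGroup F] [Module k F] [Module (Gam k R) F] [IsScalarTower k (Gam k R) F]
  (X : EMod D R M) (Y : EMod D R F) (q : F →ₗ[Gam k R] M), Function.Surjective q →
  (∀ p x, q (Y.π p x) = X.π p (q x)) → Module.Projective (Gam k R) M →
  ∃ s : M →ₗ[Gam k R] F, (∀ m, q (s m) = m) ∧ ∀ p m, s (X.π p m) = Y.π p (s m)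

/-- PACKET QE (`N_W(M)` is exact in `M`).
Proof.  Let `Z ∈ N_W(M)` and choose `Z0 : w → v → F` with `q (Z0 i j) = Z i j`.  For `i, j` the function
`F_ij (g, h) = ∑_{a,b} (W(g)_{ia} V(h⁻¹)_{bj}) • (g, h) Z0(a, b)` is rational on `G × G` (the coefficient is the product of a
function of `g` in `O` and a function of `h` in `O`: in `D.O2 = D.pr.O`; `RF_mulf`, `Y.rat`, `RF_sum`).  Let
`Y' i j = D.pr.int F_ij`.  `∑_{i',j'} W(g0)_{ii'} V(h0⁻¹)_{j'j} • (g0, h0) F_{i'j'}(g, h) = F_ij(g0 g, h0 h)`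
(`W.mul`, `V.mul` for `(h0 h)⁻¹ = h⁻¹ h0⁻¹`), so with `HI_map`, `HI_sum`, `HI_left`, `HI_uniq`: `Y' ∈ N_W(F)`.
`q (F_ij (g, h)) = ∑ W(g)_{ia} V(h⁻¹)_{bj} • (g, h) Z a b = Z i j`, so `q (Y' i j) = Z i j` (`HI_map`, `HI_const`). -/
def StmtQE : Prop := ∀ (k G R M F v w : Type) [Field k] [Group G] [Ring R] [Algebra k R]
  [MulSemiringAction G R] [SMulCommClass G k R] (D : RedGroup k G)
  [AddCommGroup M] [Module k M] [Module (Gam k R) M] [IsScalarTower k (Gam k R) M]
  [AddCommGroup F] [Module k F] [Module (Gam k R) F] [IsScalarTower k (Gam k R) F]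
  [Fintype v] [DecidableEq v] [Fintype w] [DecidableEq w] (V : MRep D v) (W : MRep D w)
  (X : EMod D R M) (Y : EMod D R F) (q : F →ₗ[Gam k R] M) (hq : ∀ p x, q (Y.π p x) = X.π p (q x)),
  Function.Surjective q → Function.Surjective (NNmap V W Y X q hq)

/-- PACKET QG (generators).
Proof.  (1) For `m : M`, `p m = ∑ f_i(p) m_i` (`RF_rep`), so the `k`-span of the orbit of `m` is finite-dimensional.  Let `W0` be
the `k`-span of the orbits of a finite set of generators of `M` over `Γ`: finite-dimensional, stable under all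
`Y.π p`, and it generates `M` over `Γ`.
(2) Let `w_a` (`a : Fin p`) be a basis of `W0` and `Y.π (g, 1) w_a = ∑_{a'} α(g)_{a'a} w_{a'}`.  This is a representation; its
coefficients are in `O`: a coordinate functional of `W0` extends to a functional on `M`, `p ↦ l (Y.π p w_a)` is in
`D.pr.O = D.O2` (`RF_fun`), and `F ∈ D.O2` implies `(g ↦ F (g, 1)) ∈ D.O`, `(h ↦ F (1, h)) ∈ D.O` (`RedGroup.O2_ind`).
(3) Let `B` be the space of `k`-linear endomorphisms of `W0` which commute with all `Y.π (g, 1)`, with basis `φ_b`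
(`b : Fin q`).  `Y.π (1, h) φ_b ∈ B`, as `(g, 1)` and `(1, h)` commute; `Y.π (1, h) φ_b = ∑_{b'} β(h)_{b'b} φ_{b'}`.  This is a
representation, with coefficients in `O`: a coordinate functional of `B` extends to a functional on `End_k(W0)`, and
`h ↦ l(Y.π (1, h) φ_b)` is a linear combination of matrix coefficients of `Y.π (1, h)` on `W0`.
(4) `e x = ∑_{a,b} x_{ab} φ_b(w_a)`.  Equivariance: `Y.π (g, h) φ_{b'}(w_{a'}) = Y.π (1, h) φ_{b'} (Y.π (g, 1) w_{a'}) =
∑_{a,b} α(g)_{aa'} β(h)_{bb'} φ_b(w_a)` and `Y.semi`.  Surjective: the identity of `W0` is a combination of the `φ_b`, so all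
`w_a` are in the range. -/
def StmtQG : Prop := ∀ (k G R M : Type) [Field k] [Group G] [Ring R] [Algebra k R]
  [MulSemiringAction G R] [SMulCommClass G k R] (D : RedGroup k G)
  [AddCommGroup M] [Module k M] [Module (Gam k R) M] [IsScalarTower k (Gam k R) M]
  (Y : EMod D R M), Module.Finite (Gam k R) M →
  ∃ (p q : ℕ) (α : MRep D (Fin p)) (β : MRep D (Fin q))
    (e : FM (Fin p) (Fin q) k R →ₗ[Gam k R] M), Function.Surjective e ∧
      ∀ g h x, e (fabF α β g h x) = Y.π (g, h) (e x)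

/-- PACKET QF (the equivariant free modules).
Proof.  `fabF α β g h` is `k`-linear in `x`; it is `1` for `g = h = 1` and multiplicative (`α.mul`, `β.mul`,
`gm (p q) = gm p gm q`, check on pure tensors); semilinear: `gm p (γ x) = gm p γ * gm p x`.  Rational: for `γ = r ⊗ s` the function
`(g, h) ↦ (g • r) ⊗ (h • s)` is rational on `G × G` (`g ↦ g • r` is `∑ f_i(g) r_i`, `RF_rep`; the products `f_i(g) f'_j(h)` are in
`D.O2`), hence for all `γ`; multiply with `α(g)_{aa'} β(h)_{bb'}` in `D.O2` and put it in the place `(a, b)` (a linear map). -/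
def StmtQF : Prop := ∀ (k G R p q : Type) [Field k] [Group G] [Ring R] [Algebra k R]
  [MulSemiringAction G R] [SMulCommClass G k R] (D : RedGroup k G)
  [Fintype p] [DecidableEq p] [Fintype q] [DecidableEq q] (α : MRep D p) (β : MRep D q),
  RatR D R → ∃ X : EMod D R (FM p q k R), ∀ g h x, X.π (g, h) x = fabF α β g h x

/-- PACKET QN (`N_W(Γ ⊗ α ⊗ β) = Hom(α', W) ⊗ Hom(V, β)`, `α'` the dual of `α`).
Proof.  The map is `A ⊗ B ↦ Y`, `Y i j a b = lf (A i a) * rt (B b j) = A_{ia} ⊗ op B_{bj}`.  It is in `N_W`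
(`mem_NN`): `∑_{i'} W(g)_{ii'} fabF(..)_{ab} = ∑ W(g)_{ii'} α(g)_{aa'} β(h)_{bb'} (g • A_{i'a'}) ⊗ (h • B_{b'j})`, with
`∑_{i'} W(g)_{ii'} (g • A_{i'a'}) = ∑_c α(g⁻¹)_{a'c} A_{ic}` (membership in `Hm R α.dual W`, `α.dual.m g = (α.m g⁻¹)ᵀ`),
`∑_{a'} α(g)_{aa'} α(g⁻¹)_{a'c} = δ_{ac}`, and `∑_{b'} β(h)_{bb'} (h • B_{b'j}) = ∑_c V(h)_{cj} B_{bc}`.  `E(W)`-linear and compatible
with `E(V)`: `lf_mul`, `rt_mul`, `lf_rt`.
Injective: `Hm ⊗ Hm → Matrix w p R ⊗ Matrix q v R` is injective (tensor product over a field of injective maps), and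
`Matrix w p R ⊗ Matrix q v R → (w → v → p → q → R ⊗ Rᵐᵒᵖ)` is injective (it is an isomorphism: `R`-valued matrices are
finite direct sums of copies of `R`, e.g. left inverse `Y ↦ ∑ (E_{ia} ⊗ E_{bj}) (Y i j a b)`).
Surjective: let `Y ∈ N_W`.  All `Y i j a b` are sums of pure tensors, so `Y = ∑_s A_s ⊗ B_s` with arbitrary matrices
`A_s : Matrix w p R`, `B_s : Matrix q v R` (e.g. matrix units times the pure tensors).  Let `A~ = ∫_g W(g) (g • A) α(g)ᵀ`,
`B~ = ∫_h β(h) (h • B) V(h)⁻¹` entrywise (rational functions, `RatR`): `A~ ∈ Hm R α.dual W`, `B~ ∈ Hm R V β` by left invariance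
(`HI_left`): `W(u) (u • A~) = ∫ W(u g) (u g • A) α(g)ᵀ = ∫ W(g) (g • A) α(u⁻¹ g)ᵀ = A~ α(u⁻¹)ᵀ`.
As `Y` is invariant, `Y = ∫ (g, h) Y` on `G × G` (`HI_const`), and the integrand of `A_s ⊗ B_s` is
`(W(g) (g • A_s) α(g)ᵀ)_{ia} ⊗ (β(h) (h • B_s) V(h)⁻¹)_{bj}`; for rational `F, F' : G → R` with integrals `r`, `r'` the integral of
`F(g) ⊗ F'(h)` over `G × G` is `r ⊗ r'` (`RF_rep`; the integral over `G × G` of `f(g) f'(h)` is `I f * I f'`).
So `Y = ∑_s A~_s ⊗ B~_s`. -/
def StmtQN : Prop := ∀ (k G R p q v w : Type) [Field k] [Group G] [Ring R] [Algebra k R]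
  [MulSemiringAction G R] [SMulCommClass G k R] (D : RedGroup k G)
  [Fintype p] [DecidableEq p] [Fintype q] [DecidableEq q]
  [Fintype v] [DecidableEq v] [Fintype w] [DecidableEq w]
  (α : MRep D p) (β : MRep D q) (V : MRep D v) (W : MRep D w) (X : EMod D R (FM p q k R)),
  RatR D R → (∀ g h x, X.π (g, h) x = fabF α β g h x) →
  ∃ e : TensorProduct k (Hm R α.dual W) (Hm R V β) ≃ₗ[EE R W] NN V W X,
    ∀ (a : EE R V) (y : TensorProduct k (Hm R α.dual W) (Hm R V β)),
      e (TensorProduct.AlgebraTensorModule.map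
        (LinearMap.id : Hm R α.dual W →ₗ[EE R W] Hm R α.dual W) ((HU V β).r a) y) =
        (NA V W X).r a (e y)

/-- PACKET QP (`Hom(V, W)` is projective if `V` is a direct summand of `W`).
Proof.  Let `a, b` be as in `Retr V W` and `a', b'` their images in matrices over `R` (`Matrix.map (algebraMap k R)`); they are
equivariant: `b' ∈ Hm R W V`, `a' ∈ Hm R V W` (`g • algebraMap c = algebraMap c`).  `A ↦ A * b'` is an `E(W)`-linear map
`Hm R V W → E(W)`, `C ↦ C * a'` an `E(W)`-linear map back, and `A * b' * a' = A`.  So `Hm R V W` is a direct summand of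
`E(W)` (`Module.Projective.of_split`, `Module.Finite.of_surjective`). -/
def StmtQP : Prop := ∀ (k G R v w : Type) [Field k] [Group G] [Ring R] [Algebra k R]
  [MulSemiringAction G R] [SMulCommClass G k R] (D : RedGroup k G)
  [Fintype v] [DecidableEq v] [Fintype w] [DecidableEq w] (V : MRep D v) (W : MRep D w),
  Retr V W → Module.Finite (EE R W) (Hm R V W) ∧ Module.Projective (EE R W) (Hm R V W)

/-- PACKET QH (all `Hom(V, W)` are finite-dimensional).
Proof.  `A ↦ fromBlocks 0 0 A 0` is an injective `k`-linear map `Hm R V W → EE R (V.sum W)` (rows `w`, columns `v`;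
check the condition of `Hm` block by block). -/
def StmtQH : Prop := ∀ (k G R v w : Type) [Field k] [Group G] [Ring R] [Algebra k R]
  [MulSemiringAction G R] [SMulCommClass G k R] (D : RedGroup k G)
  [Fintype v] [DecidableEq v] [Fintype w] [DecidableEq w] (V : MRep D v) (W : MRep D w),
  PropR D R → FiniteDimensional k (Hm R V W)

/-- PACKET QB (the equivariant module of matrix coefficients).
`BM R V` is the `Γ`-submodule `BV R V` of `BF G R` spanned by the `cf R V i j`, as a type; `F.fn` is the function.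
Proof.  `BV R V` is spanned by the finitely many `cf R V i j`.  `T_{g,h} F = (x ↦ g • F(g⁻¹ x h))` is `k`-linear on
`BF G R`, `T_{1,1} = 1`, `T_{g,h} T_{g',h'} = T_{gg',hh'}`, and `T_{g,h} (γ F) = gm (g, h) γ T_{g,h} F` (on pure tensors, `bf_smul`:
`g • (r F(g⁻¹ x h) ((g⁻¹ x h) • s)) = (g • r) (g • F(g⁻¹ x h)) (x • (h • s))`).
`T_{g,h} (cf i j) = ∑_{a,b} (V(g⁻¹)_{ia} V(h)_{bj}) • cf a b` (`g • algebraMap c = algebraMap c`), so `T` preserves `BV R V`.
Rational: for `γ : Γ` the function `p ↦ gm p γ` is rational (as in packet QF), `p ↦ T_p (cf i j)` is rational, and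
`T_p (γ cf) = gm p γ • T_p cf` (`RF_bil` for the bilinear map `Γ × BV → BV`), sums. -/
def StmtQB : Prop := ∀ (k G R v : Type) [Field k] [Group G] [Ring R] [Algebra k R]
  [MulSemiringAction G R] [SMulCommClass G k R] (D : RedGroup k G)
  [Fintype v] [DecidableEq v] (V : MRep D v), RatR D R →
  Module.Finite (Gam k R) (BM R V) ∧ ∃ X : EMod D R (BM R V),
    ∀ (g h : G) (F : BM R V) (x : G), (X.π (g, h) F).fn x = g • F.fn (g⁻¹ * x * h)

/-- PACKET QM (`N_W(BV) = Hom(V, W)`).
Proof.  `e Y = (Y i j).fn 1` (value at `1 : G`).  Let `Y ∈ N_W` and `A = (Y i j).fn 1`.  With `mem_NN` for `g = 1`: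
`(Y i j).fn (x h) = ∑_b V(h)_{bj} • (Y i b).fn x`, so `(Y i j).fn h = ∑_b V(h)_{bj} • A i b`; for `h = g`, at `x = 1`:
`∑_a W(g)_{ia} • g • A a j = ∑_b V(g)_{bj} • A i b`, so `A ∈ Hm R V W`.  Injective: `Y` is determined by `A`.  Surjective: for
`A ∈ Hm R V W` let `Y i j = ∑_l lf (A i l) • cf R V l j`, the function `x ↦ ∑_l A_il V(x)_lj`; it is in `N_W`:
`W(g) g • (A V(g⁻¹ x h)) = A V(g) V(g⁻¹ x h) = A V(x) V(h)`; its value at `1` is `A`.
`E(W)`-linear: `(lf r • F) 1 = r * F 1`; right action: `(rt s • F) 1 = F 1 * s`. -/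
def StmtQM : Prop := ∀ (k G R v w : Type) [Field k] [Group G] [Ring R] [Algebra k R]
  [MulSemiringAction G R] [SMulCommClass G k R] (D : RedGroup k G)
  [Fintype v] [DecidableEq v] [Fintype w] [DecidableEq w] (V : MRep D v) (W : MRep D w)
  (X : EMod D R (BM R V)),
  (∀ (g h : G) (F : BM R V) (x : G), (X.π (g, h) F).fn x = g • F.fn (g⁻¹ * x * h)) →
  ∃ e : NN V W X ≃ₗ[EE R W] Hm R V W, ∀ (a : EE R V) (Y : NN V W X),
    e ((NA V W X).r a Y) = (HU V W).r a (e Y)

/-- PACKET QD (the induction on the projective dimension; from SU, TT, QS, QE, QG, QF, QN, QP, QH).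
Proof.  Induction on `d`.  QG gives `α, β` and an equivariant surjection `e : F = FM (Fin p) (Fin q) k R → M`, QF makes `F` an
`EMod`, `Xf`.  For rational `W` such that `α.dual` is a direct summand of `W`: `P = Hm R α.dual W` is finite projective over
`E(W)` (QP), `U = Hm R V β` is finite-dimensional (QH), and `N_W(F) = P ⊗ U` by QN; so `N_W(F)` is finite and projective over
`E(W)`, finite-dimensional over `k`, and `CZ (NA V W Xf)` by SU (with the isomorphism `e.symm`, `e` of QN).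
`d = 0`: `M` is projective over `Γ` (`HasProjectiveDimensionLT _ 1`, see
`Mathlib/CategoryTheory/Abelian/Projective/Dimension.lean`, and `IsProjective.iff_projective`).  `Ω = α.dual`.  QS gives an
equivariant section `s`; `NNmap e`, `NNmap s` make `N_W(M)` a bimodule direct summand of `N_W(F) = P ⊗ U`: SU.
`d + 1`: let `K` be the kernel of `e`, an `EMod` (restrict `Xf.π`; rational by `RF_sub` over `k`), finitely generated
(`Γ` noetherian), with `HasProjectiveDimensionLT K (d + 1)`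
(`ShortComplex.ShortExact.hasProjectiveDimensionLT_X₁`, `F` is free).  `Ω = α.dual.sum Ω_K`, `Ω_K` from the
induction hypothesis for `K`.  Let `W` have the summand `Ω`; then `α.dual` and `Ω_K` are summands of `W` (compose with the
inclusions and projections of `MRep.sum`).  Let `N_W(M)` be projective.  `0 → N_W(K) → N_W(F) → N_W(M) → 0` is exact
(`NNmap` of the inclusion and of `e`; QE; kernel: entries in `K`).  It splits over `E(W)`, so `N_W(K)` is projective
(a direct summand of `N_W(F)`), all are finite over `E(W)` (`N_W(K)` is finite-dimensional over `k`).  By induction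
`CZ (NA V W X_K)`, and TT (second part) gives `CZ (NA V W X)`. -/
def StmtQD : Prop := ∀ (k G R v : Type) [Field k] [CharZero k] [Group G] [Ring R] [Algebra k R]
  [MulSemiringAction G R] [SMulCommClass G k R] (D : RedGroup k G)
  [Fintype v] [DecidableEq v] (V : MRep D v), RatR D R → PropR D R → IsNoetherianRing (Gam k R) →
  ∀ (d : ℕ) (M : Type) [AddCommGroup M] [Module k M] [Module (Gam k R) M]
    [IsScalarTower k (Gam k R) M] (X : EMod D R M), Module.Finite (Gam k R) M →
    CategoryTheory.HasProjectiveDimensionLT (ModuleCat.of (Gam k R) M) (d + 1) →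
    ∃ (o : Type) (_ : Fintype o) (_ : DecidableEq o) (Ω : MRep D o),
      ∀ (w : Type) [Fintype w] [DecidableEq w] (W : MRep D w), Retr Ω W →
        Module.Projective (EE R W) (NN V W X) → CZ (NA V W X)

end Pool.Agent.Helper44.HD
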