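import Pool.Agent.Helper44.HD.DefsC
import Pool.Agent.Helper44.HD.GoalsQ

/-!
# Project HD (MP_e5f486_ag), goals C: the core statement, chains, the category, smooth algebras

Definitions: `Pool/Agent/Helper44/HD/DefsC.lean`.
-/

set_option autoImplicit false

open Finset
open scoped TensorProduct

namespace Pool.Agent.Helper44.HD

/-- every finitely generated module over `R ⊗ Rᵒᵖ` has finite projective dimension -/
def FinPD (k R : Type) [Field k] [Ring R] [Algebra k R] : Prop :=
  ∀ (M : Type) [AddCommGroup M] [Module (Gam k R) M], Module.Finite (Gam k R) M →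
    ∃ d : ℕ, CategoryTheory.HasProjectiveDimensionLT (ModuleCat.of (Gam k R) M) d

/-- PACKET QZ (the core; from QB, QM, QP, QD).
Proof.  QB makes `BM R V` a finitely generated `EMod`, `X`.  It has finite projective dimension (`FinPD`;
`HasProjectiveDimensionLT _ d` implies the same for `d + 1`, `hasProjectiveDimensionLT_of_ge`), so QD gives `Ω`.  Let `W` have the
summand `Ω`, `r : RetD V W`.  By QM `N_W(BM R V)` is isomorphic to `Hm R V W` over `E(W)` (compatibly with `E(V)`), which is projective by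
QP (`r.retr`).  So `CZ (NA V W X)`.  Use it for the realization with `κ = Unit`: let `a' = r.a.map (algebraMap k R)`,
`b' = r.b.map (algebraMap k R)` (`map_mem_Hm`), `e` the isomorphism of QM, `i Y = (fun _ => e Y * b')`,
`p C = e.symm (C () * a')` (`E(W)`-linear; `p i = 1` because `b' a' = 1`).  The `1 × 1` matrix `mx (i ∘ r_x ∘ p)` is
`1 * a' * x * b' = r.emb x`, and `tc (n+1) φ` on `1 × 1` matrices is `φ` of the entries (one function `ι`).  So
`Cob n (TF (n+1) φ ..)` is the claim (`Cob.congr`; `φ` depends only on the entries). -/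
def StmtQZ : Prop := ∀ (k G R v : Type) [Field k] [CharZero k] [Group G] [Ring R] [Algebra k R]
  [MulSemiringAction G R] [SMulCommClass G k R] (D : RedGroup k G)
  [Fintype v] [DecidableEq v] (V : MRep D v), RatR D R → PropR D R → IsNoetherianRing (Gam k R) →
  FinPD k R →
  ∃ (o : Type) (_ : Fintype o) (_ : DecidableEq o) (Ω : MRep D o),
    ∀ (w : Type) [Fintype w] [DecidableEq w] (W : MRep D w), Retr Ω W → ∀ r : RetD V W,
      ∀ (n : ℕ) (φ : (ℕ → EE R W) → k), Cocy (n + 1) φ →
        Cob n fun x : ℕ → EE R V => φ fun i => r.emb (x i)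

/-- PACKET DU (from cochains to chains).
Proof.  Suppose `HCmap k f (n+1) z` is not in the range of `bc k B (n+1)`.  There is a linear functional `l` on `HC k B (n+1)`
which vanishes on the range and not at this element (`Submodule.exists_le_ker_of_notMem`).  `φ x = l (tp k (n+1) x)` is a cochain
(`tp_coch`, `Coch.out`), and `dl (n+1) φ x = l (bch k (n+1) x) = l (bc (tp x)) = 0`, so it is a cocycle.  Hence
`φ (f ∘ x) = dl n ψ x` with an `n`-cochain `ψ`, `dl n ψ x = L (bc k A n (tp k (n+1) x))` with `L = Coch.lin`, so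
`l ∘ HCmap f = L ∘ bc` (`HC_ext`, `HCmap_tp`) and `l (HCmap f z) = L (bc z) = 0`, a contradiction. -/
def StmtDU : Prop := ∀ (k A B : Type) [Field k] [Ring A] [Algebra k A] [Ring B] [Algebra k B]
  (f : A →ₗ[k] B), (∀ a b, f (a * b) = f a * f b) → ∀ n : ℕ,
  (∀ φ : (ℕ → B) → k, Cocy (n + 1) φ → Cob n fun x : ℕ → A => φ fun i => f (x i)) →
  ∀ z : HC k A (n + 1), bc k A n z = 0 → ∃ w : HC k B (n + 2), bc k B (n + 1) w = HCmap k f (n + 1) z

/-- PACKET PJ (projection to composable words).
Let `e x` (`x : S`, `S` finite) be orthogonal idempotents with sum `1` in `B`; a word `a_0 ⊗ .. ⊗ a_q` is composable if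
`a_i = e (x i) * a_i * e (x (i+1))` for `i ≤ q`, `x (q+1) = x 0`.
Proof.  `Π q (a_0 ⊗ .. ⊗ a_q) = ∑_{x : Fin (q+1) → S} ⊗_i e (x i) a_i e (x (i+1))`, indices modulo `q + 1`
(`x (Fin.ofNat (q+1) i)`), a sum of cochains (`Coch.comp` of `tp_coch` with the linear maps `a ↦ e a e`), `Coch.lin`.  Its values are
composable.  On a composable word with objects `y` only `x = y` contributes (`e (x i) e (y i) = 0` otherwise).
`bc (Π (tp a)) = Π (bc (tp a))`: for the face `j ≤ q` of `a_0 ⊗ .. ⊗ a_{q+1}` the sum over the object `x_{j+1}` of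
`e (x_j) a_j e (x_{j+1}) e (x_{j+1}) a_{j+1} e (x_{j+2})` is `e (x_j) a_j a_{j+1} e (x_{j+2})`, as `∑ e = 1`
(`Coch.update_sum` of `tp_coch`); the functions `Fin (q+2) → S` correspond to the pairs (function `Fin (q+1) → S`, the
object `x_{j+1}` inserted in place `j + 1`); for the cyclic face the middle object is `x_0`.  This is the same bookkeeping as in
packet TR (`Pool/Agent/Helper1/HD/TR.lean`, the trace form commutes with the coboundary): it may be possible to deduce it
from there. -/
def StmtPJ : Prop := ∀ (k B S : Type) [Field k] [Ring B] [Algebra k B] [Fintype S] [DecidableEq S]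
  (e : S → B), (∀ x, e x * e x = e x) → (∀ x y, x ≠ y → e x * e y = 0) → ∑ x, e x = 1 →
  ∃ P : ∀ q : ℕ, HC k B q →ₗ[k] HC k B q,
    (∀ q z, P q z ∈ Submodule.span k {z | ∃ (x : ℕ → S) (a : ℕ → B),
      (∀ i, i ≤ q → a i = e (x i) * a i * e (x (i + 1))) ∧ x (q + 1) = x 0 ∧ z = tp k q a}) ∧
    (∀ q z, z ∈ Submodule.span k {z | ∃ (x : ℕ → S) (a : ℕ → B),
      (∀ i, i ≤ q → a i = e (x i) * a i * e (x (i + 1))) ∧ x (q + 1) = x 0 ∧ z = tp k q a} →
      P q z = z) ∧
    ∀ q z, bc k B q (P (q + 1) z) = P q (bc k B q z)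

/-- PACKET CA (the Hochschild homology of the category; from QZ, DU, PJ).
`Cyc R D q` are the Hochschild chains of degree `q` of the category of the `R ⊗ V`, inside the chains of
`Amb D R = End_k(𝓟)`, `𝓟 = (Ix D →₀ R)` the direct sum of all `R ⊗ V`.
Proof.  For a finite set `S` of objects let `κ_S = Σ x : S, Fin x.1.1` and `V_S : MRep D κ_S` the block diagonal representation,
`E_S = EE R V_S`, and `J_S : E_S → Amb D R`, `B ↦ ∑_{a,b : κ_S} lsingle a ∘ mulLeft (B a b) ∘ lapply b` (`κ_S ⊆ Ix D`).
`J_S` is linear, multiplicative (not unital) and injective.  With `e_x ∈ E_S` the identity of the block `x` (orthogonal idempotents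
with sum `1`), `J_S (e_x a e_y) ∈ hom R x y`, and every element of `hom R x y` is `J_S` of an `a = e_x a e_y`.
(1) Let `z ∈ Cyc R D (n+1)` with `bc z = 0`.  `z` is a finite combination of words; let `S` contain their objects.  So
`z = HCmap J_S z1`, `z1` in the span of the composable words of `E_S`.  `HCmap J_S` is injective (`J_S` has a `k`-linear left inverse)
and commutes with `bc`, so `bc z1 = 0`.
(2) QZ for `V_S` gives `Ω`.  Let `ω` be an object `(N, Ω1)` such that `Ω` is a direct summand of `Ω1`, and `N` is larger than all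
dimensions in `S` (`Ω1` = `Ω` plus a trivial representation, reindexed to `Fin N`); so `ω ∉ S`.  Let `S' = S ∪ {ω}`.  `Ω` is a summand of
`V_{S'}`, and `κ_S ⊆ κ_{S'}` gives `r : RetD V_S V_{S'}` with `J_{S'} (r.emb x) = J_S x`.  By QZ and DU (for `f = r.emb`) there is
`w1 : HC k E_{S'} (n+2)` with `bc w1 = HCmap r.emb z1`.
(3) Let `P` be as in PJ for `E_{S'}` and its idempotents.  `HCmap r.emb z1` is in the span of the composable words of `E_{S'}`
(`r.emb (e_x) = e_x`), so `bc (P w1) = P (bc w1) = HCmap r.emb z1`.  `w = HCmap J_{S'} (P w1)` is in `Cyc R D (n+2)`, and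
`bc w = HCmap J_{S'} (HCmap r.emb z1) = HCmap J_S z1 = z`. -/
def StmtCA : Prop := ∀ (k G R : Type) [Field k] [CharZero k] [Group G] [Ring R] [Algebra k R]
  [MulSemiringAction G R] [SMulCommClass G k R] (D : RedGroup k G), RatR D R → PropR D R →
  IsNoetherianRing (Gam k R) → FinPD k R → ∀ (n : ℕ) (z : HC k (Amb D R) (n + 1)),
    z ∈ Cyc R D (n + 1) → bc k (Amb D R) n z = 0 →
    ∃ w ∈ Cyc R D (n + 2), bc k (Amb D R) (n + 1) w = z

/-- PACKET BC (the boundary preserves the composable words).
Proof.  On a composable word `a_0 ⊗ .. ⊗ a_{q+1}` with objects `x` (`bc_tp`, `bch`): the face `j ≤ q` is the word `ct j a` with the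
objects `i ↦ if i ≤ j then x i else x (i + 1)`, the cyclic face is `cy (q+1) a` with objects `x_{q+1}, x_1, x_2, ..`
(`a_{q+1} a_0 ∈ hom R (x_{q+1}) (x_1)`; the last one is `x_{q+1}`).  `em x y A * em y z B = em x z (A * B)` (composition of
endomorphisms) and `Hm_mul`. -/
def StmtBC : Prop := ∀ (k G R : Type) [Field k] [Group G] [Ring R] [Algebra k R]
  [MulSemiringAction G R] [SMulCommClass G k R] (D : RedGroup k G) (q : ℕ)
  (z : HC k (Amb D R) (q + 1)), z ∈ Cyc R D (q + 1) → bc k (Amb D R) q z ∈ Cyc R D q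

/-- PACKET AT (Artin-Tate).
Proof.  Let `Z = Subalgebra.center k R`, `y_1, .., y_m` generators of `R` as a `Z`-module with `y_1 = 1`, and `S` a finite set of
generators of the algebra `R`.  Write `s = ∑ c_{s,i} y_i` (`s ∈ S`), `y_i y_j = ∑ d_{ijl} y_l`; let `Z0 ⊆ Z` be the subalgebra generated by
the finitely many `c, d`.  It is noetherian (finitely generated commutative algebra over a field).  The `Z0`-span of the
`y_i` is a subring which contains `S` and `k`, so it is `R`: `R` is a finite `Z0`-module.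
`R ⊗ Rᵐᵒᵖ` is generated by the `y_i ⊗ y_j` as a module over `Z0 ⊗ Z0` (acting by multiplication with the central elements
`c ⊗ op c'`), which is a finitely generated commutative `k`-algebra, so noetherian.  Left ideals of `R ⊗ Rᵐᵒᵖ` are
`Z0 ⊗ Z0`-submodules of a noetherian module. -/
def StmtAT : Prop := ∀ (k R : Type) [Field k] [Ring R] [Algebra k R], (⊤ : Subalgebra k R).FG →
  Module.Finite (Subalgebra.center k R) R → IsNoetherianRing (Gam k R)

/-- PACKET GA (projective dimension over `A ⊗ T`; a bimodule resolution of `A` tensored with `M`).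
`N` over `T` and `M` over `A ⊗ T` are arbitrary.
Proof.  All modules are `k`-vector spaces (restrict along `k → A ⊗ T`, `Module.compHom`).
(0) For a `T`-module `N` the `A ⊗ T`-module `A ⊗ N` (`(a ⊗ t)(b ⊗ x) = ab ⊗ tx`) has `HasProjectiveDimensionLT (m+1)` if `N` has:
`N ↦ A ⊗ N` is exact (`k` a field), maps free modules to free modules, so projective ones to projective ones; induct on `m` with
`0 → K → F → N → 0` (`ShortComplex.ShortExact.hasProjectiveDimensionLT_X₃`, `.._X₁`).
(1) For a module `X` over `Gam k A = A ⊗ Aᵒᵖ` and a module `M` over `A ⊗ T` let `Q(X)` be `X ⊗_A M`: the quotient of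
`X ⊗_k M` by the subspace spanned by the `x a ⊗ m - x ⊗ (a ⊗ 1) m` (`x a = (1 ⊗ op a) x`); it is an `A ⊗ T`-module by
`(a ⊗ t)(x ⊗ m) = (a ⊗ 1) x ⊗ (1 ⊗ t) m`.  `Q` is a functor; a right `A`-linear map `X → X'` (commuting with the `1 ⊗ op a`) still
induces a `k`-linear map `Q(X) → Q(X')`.
(2) `Q(A) = M`.
(3) `Q(Gam k A ⊗_k Y) = A ⊗_k (Y ⊗_k M)` for a vector space `Y`, where `Y ⊗ M` is a `T`-module:
`((a ⊗ op b) ⊗ y) ⊗ m ↦ a ⊗ (y ⊗ b m)`, inverse `a ⊗ (y ⊗ m) ↦ ((a ⊗ 1) ⊗ y) ⊗ m`.  So by (0) it has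
`HasProjectiveDimensionLT (m+1)`.  If `X` is projective over `Gam k A`, then `X` is a direct summand of `Gam k A ⊗_k X` (`γ ⊗ x ↦ γ x`
splits), so `Q(X)` is a direct summand of `Q(Gam k A ⊗ X)` and has `HasProjectiveDimensionLT (m+1)`
(`Retract.hasProjectiveDimensionLT`).
(4) Claim: if `X` is projective as a right `A`-module (over `Aᵐᵒᵖ`, along `op a ↦ 1 ⊗ op a`) and has
`HasProjectiveDimensionLT (n+1)` over `Gam k A`, then `Q(X)` has `HasProjectiveDimensionLT (n+m+1)`.  `n = 0`: (3).  Step: let
`0 → K → P → X → 0` with `P` free over `Gam k A`; `P` is free over `Aᵐᵒᵖ`.  As right modules the sequence splits, so `K` is right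
projective, and `0 → Q(K) → Q(P) → Q(X) → 0` is exact (with right linear maps `σ : X → P`, `κ : P → K`, `π σ = 1`,
`κ ι = 1`, `ι κ + σ π = 1` one gets `k`-linear maps `Q(σ)`, `Q(κ)` with the same identities).  `K` has
`HasProjectiveDimensionLT n`, so `Q(K)` has `.. (n+m)`, `Q(P)` has `.. (m+1)`, hence `Q(X)` has `.. (n+m+1)`.
(5) `X = A` is right projective; use (2), (4). -/
def StmtGA : Prop := ∀ (k A T : Type) [Field k] [Ring A] [Algebra k A] [Ring T] [Algebra k T]
  (n m : ℕ), CategoryTheory.HasProjectiveDimensionLT (ModuleCat.of (Gam k A) (RBi A)) (n + 1) →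
  (∀ (N : Type) [AddCommGroup N] [Module T N],
    CategoryTheory.HasProjectiveDimensionLT (ModuleCat.of T N) (m + 1)) →
  ∀ (M : Type) [AddCommGroup M] [Module (A ⊗[k] T) M],
    CategoryTheory.HasProjectiveDimensionLT (ModuleCat.of (A ⊗[k] T) M) (n + m + 1)

/-- PACKET GB (a smooth algebra has finite global dimension over `R ⊗ Rᵒᵖ`; from GA).
Proof.  Let `A = Rᵐᵒᵖ`.  The ring isomorphism `σ : R ⊗ Rᵐᵒᵖ → A ⊗ Aᵐᵒᵖ`, `r ⊗ op s ↦ op s ⊗ op (op r)`, and the additive
isomorphism `x ↦ op x` from `RBi R` to `RBi A` (`op (r x s) = op s * op x * op r`) show that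
`HasProjectiveDimensionLT (ModuleCat.of (Gam k A) (RBi A)) (n + 1)` (restriction of scalars along a ring isomorphism is an
equivalence of categories, `ModuleCat.restrictScalarsEquivalenceOfRingEquiv`; or prove by induction on `n`, for a ring isomorphism
`σ : B → C`, a `B`-module `X`, a `C`-module `Y` and a `σ`-semilinear isomorphism `X → Y`, that the projective dimensions agree).
GA for `A` and `T = k` (`m = 0`: all `k`-modules are projective) gives `HasProjectiveDimensionLT (n+1)` for all modules over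
`A ⊗ k ≅ A` (the ring isomorphism `Algebra.TensorProduct.rid`), so for all `Rᵐᵒᵖ`-modules.  GA for `A = R`, `T = Rᵐᵒᵖ`, `m = n`
gives `HasProjectiveDimensionLT (2n+1)` for all modules over `R ⊗ Rᵐᵒᵖ`. -/
def StmtGB : Prop := ∀ (k R : Type) [Field k] [Ring R] [Algebra k R] (n : ℕ),
  CategoryTheory.HasProjectiveDimensionLT (ModuleCat.of (Gam k R) (RBi R)) (n + 1) → FinPD k R

end Pool.Agent.Helper44.HD
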