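import Pool.Agent.Helper44.HD.DU
import Pool.Agent.Helper44.HD.BC

/-!
# Project HD (MP_e5f486_ag): the final statement and its assembly
-/

set_option autoImplicit false

open Finset

namespace Pool.Agent.Helper44.HD

/-- the Hochschild boundary `C_{q+1} → C_q` of the category of the modules `R ⊗ V` -/
noncomputable def bd {k G : Type} [Field k] [Group G] (D : RedGroup k G) (R : Type) [Ring R]
    [Algebra k R] [MulSemiringAction G R] [SMulCommClass G k R] (q : ℕ) :
    Cyc R D (q + 1) →ₗ[k] Cyc R D q :=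
  ((bc k (Amb D R) q).comp (Cyc R D (q + 1)).subtype).codRestrict (Cyc R D q)
    fun z => bcy k G R D q z.1 z.2

/-- `z` is a Hochschild cycle -/
def Cycle {k G : Type} [Field k] [Group G] (D : RedGroup k G) (R : Type) [Ring R]
    [Algebra k R] [MulSemiringAction G R] [SMulCommClass G k R] : ∀ q : ℕ, Cyc R D q → Prop
  | 0, _ => True
  | q + 1, z => bd D R q z = 0

section formal

variable {k G : Type} [Field k] [Group G] {D : RedGroup k G} {R : Type} [Ring R]
    [Algebra k R] [MulSemiringAction G R] [SMulCommClass G k R]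

/-- formal part: if the Hochschild homology vanishes in positive degrees, all cycles extend -/
theorem lift_cycles
    (h : ∀ (q : ℕ) (z : Cyc R D (q + 1)), bd D R q z = 0 → ∃ w, bd D R (q + 1) w = z)
    (B : ∀ q : ℕ, Cyc R D q →ₗ[k] Cyc R D (q + 1))
    (hB : ∀ q z, B (q + 1) (B q z) = 0)
    (hb0 : ∀ z, bd D R 0 (B 0 z) = 0)
    (hb : ∀ q z, bd D R (q + 1) (B (q + 1) z) + B q (bd D R q z) = 0)
    (q : ℕ) (z : Cyc R D q) (hz : Cycle D R q z) :
    ∃ Z : ∀ i : ℕ, Cyc R D (q + 2 * i), Z 0 = z ∧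
      ∀ i, bd D R (q + 2 * i + 1) (Z (i + 1)) + B (q + 2 * i) (Z i) = 0 := by
  classical
  have h0 : bd D R q (B q z) = 0 := by
    cases q with
    | zero => exact hb0 z
    | succ q =>
      have h1 := hb q z
      have h2 : bd D R q z = 0 := hz
      rw [h2, map_zero, add_zero] at h1
      exact h1
  have step : ∀ (i : ℕ) (y : Cyc R D (q + 2 * i)), bd D R (q + 2 * i) (B (q + 2 * i) y) = 0 →
      ∃ y' : Cyc R D (q + 2 * (i + 1)), bd D R (q + 2 * i + 1) y' + B (q + 2 * i) y = 0 ∧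
        bd D R (q + 2 * (i + 1)) (B (q + 2 * (i + 1)) y') = 0 := by
    intro i y hy
    obtain ⟨w, hw⟩ := h (q + 2 * i) (-B (q + 2 * i) y) (by rw [map_neg, hy, neg_zero])
    refine ⟨w, by rw [hw, neg_add_cancel], ?_⟩
    have h1 := hb (q + 2 * i + 1) w
    rw [hw, map_neg, hB, neg_zero, add_zero] at h1
    exact h1
  choose f hf using step
  let Z : ∀ i : ℕ, {y : Cyc R D (q + 2 * i) // bd D R (q + 2 * i) (B (q + 2 * i) y) = 0} :=
    fun i => Nat.rec (motive := fun i =>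
      {y : Cyc R D (q + 2 * i) // bd D R (q + 2 * i) (B (q + 2 * i) y) = 0})
      ⟨z, h0⟩ (fun i y => ⟨f i y.1 y.2, (hf i y.1 y.2).2⟩) i
  exact ⟨fun i => (Z i).1, rfl, fun i => (hf i (Z i).1 (Z i).2).1⟩

end formal

open CategoryTheory in
/-- assembly -/
theorem hd_main (hAT : StmtAT) (hGB : StmtGB) (hCA : StmtCA)
    (k G R : Type) [Field k] [CharZero k] [Group G] [Ring R] [Algebra k R]
    [MulSemiringAction G R] [SMulCommClass G k R] (D : RedGroup k G) (hrat : RatR D R)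
    (hfg : (⊤ : Subalgebra k R).FG) (hcen : Module.Finite (Subalgebra.center k R) R)
    (hsm : ∃ n : ℕ, HasProjectiveDimensionLT (ModuleCat.of (Gam k R) (RBi R)) n)
    (hprop : PropR D R) :
    (∀ (q : ℕ) (z : Cyc R D (q + 1)), bd D R q z = 0 → ∃ w, bd D R (q + 1) w = z) ∧
    ∀ B : ∀ q : ℕ, Cyc R D q →ₗ[k] Cyc R D (q + 1),
      (∀ q z, B (q + 1) (B q z) = 0) → (∀ z, bd D R 0 (B 0 z) = 0) →
      (∀ q z, bd D R (q + 1) (B (q + 1) z) + B q (bd D R q z) = 0) →
      ∀ (q : ℕ) (z : Cyc R D q), Cycle D R q z →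
        ∃ Z : ∀ i : ℕ, Cyc R D (q + 2 * i), Z 0 = z ∧
          ∀ i, bd D R (q + 2 * i + 1) (Z (i + 1)) + B (q + 2 * i) (Z i) = 0 := by
  have hN := hAT k R hfg hcen
  have hP : FinPD k R := by
    obtain ⟨n, hn⟩ := hsm
    exact hGB k R n (hasProjectiveDimensionLT_of_ge _ n (n + 1) (by omega))
  have h1 : ∀ (q : ℕ) (z : Cyc R D (q + 1)), bd D R q z = 0 → ∃ w, bd D R (q + 1) w = z := by
    intro q z hz
    obtain ⟨w, hw, e⟩ := hCA k G R D hrat hprop hN hP q z.1 z.2 (congrArg Subtype.val hz)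
    exact ⟨⟨w, hw⟩, Subtype.ext e⟩
  exact ⟨h1, fun B hB hb0 hb q z hz => lift_cycles h1 B hB hb0 hb q z hz⟩

end Pool.Agent.Helper44.HD
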