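import Pool.Agent.Helper44.HD.Main
import Pool.Agent.Helper44.HD.All

/-!
# Project HD (MP_e5f486_ag): the definitions of the final statement in short form

`Ch`, `pt`, `bdy` are the Hochschild chains, pure tensors and the Hochschild boundary of an algebra, `Cw` the
cyclic words of a category given by its objects and its morphism spaces inside of an algebra.
-/

set_option autoImplicit false

open Finset

namespace Pool.Agent.Helper44.HD.Stmt

section chains

variable (k A : Type) [Field k] [Ring A] [Algebra k A]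

/-- Hochschild chains of degree `n` of the algebra `A`: the tensor power `A ⊗ ... ⊗ A` (`n + 1` factors) -/
def Ch (n : ℕ) : Type := PiTensorProduct k fun _ : Fin (n + 1) => A

/-- the addition of chains -/
noncomputable instance instChAdd (n : ℕ) : AddCommMonoid (Ch k A n) :=
  PiTensorProduct.instAddCommMonoid (R := k) fun _ : Fin (n + 1) => A

/-- the vector space of chains -/
noncomputable instance instChMod (n : ℕ) : Module k (Ch k A n) :=
  PiTensorProduct.instModule (R := k) (s := fun _ : Fin (n + 1) => A)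

variable {A}

/-- the pure tensor `x_0 ⊗ ... ⊗ x_n` -/
noncomputable def pt (n : ℕ) (x : ℕ → A) : Ch k A n :=
  PiTensorProduct.tprod k fun i : Fin (n + 1) => x i

/-- the Hochschild boundary of the pure tensor `x_0 ⊗ ... ⊗ x_{n+1}`:
`∑_{j ≤ n} (-1)^j (.. ⊗ x_j x_{j+1} ⊗ ..) + (-1)^(n+1) (x_{n+1} x_0 ⊗ x_1 ⊗ .. ⊗ x_n)` -/
noncomputable def bp (n : ℕ) (x : ℕ → A) : Ch k A n :=
  ∑ j ∈ range (n + 1), (-1 : k) ^ j • pt k n (ct j x) +
    (-1 : k) ^ (n + 1) • pt k n (cy (n + 1) x)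

variable (A)

/-- the Hochschild boundary exists -/
theorem ex_bdy (n : ℕ) : ∃ b : Ch k A (n + 1) → Ch k A n, IsLinearMap k b ∧
    ∀ x : ℕ → A, b (pt k (n + 1) x) = bp k n x :=
  ⟨bc k A n, (bc k A n).isLinear, fun x => bc_tp k n x⟩

/-- the Hochschild boundary `C_{n+1} → C_n` of the algebra `A`: the linear map given by `bp` on the pure tensors -/
noncomputable def bdy (n : ℕ) : Ch k A (n + 1) → Ch k A n := (ex_bdy k A n).choose

theorem bdy_eq (n : ℕ) (z : Ch k A (n + 1)) : bdy k A n z = bc k A n z := by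
  have h := (ex_bdy k A n).choose_spec
  let f : HC k A (n + 1) →ₗ[k] HC k A n := IsLinearMap.mk' (ex_bdy k A n).choose h.1
  have e : f = bc k A n := by
    refine HC_ext fun x => ?_
    exact (h.2 x).trans (bc_tp k n x).symm
  exact LinearMap.congr_fun e z

/-- `z` is a Hochschild cycle -/
def IsCyc : ∀ q : ℕ, Ch k A q → Prop
  | 0, _ => True
  | q + 1, z => bdy k A q z = 0

end chains

section words

variable {k A Ω : Type} [Field k] [Ring A] [Algebra k A] (H : Ω → Ω → Submodule k A)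

/-- Hochschild chains of degree `q` of the category with objects `Ω` and morphism spaces `H x y ⊆ A`, `y → x`: the
span of the `a_0 ⊗ a_1 ⊗ ... ⊗ a_q`, `a_i ∈ H x_i x_{i+1}`, `x_{q+1} = x_0` -/
noncomputable def Cw (q : ℕ) : Submodule k (Ch k A q) :=
  Submodule.span k {z | ∃ (x : ℕ → Ω) (a : ℕ → A),
    (∀ i, i ≤ q → a i ∈ H (x i) (x (i + 1))) ∧ x (q + 1) = x 0 ∧ z = pt k q a}

/-- the Hochschild homology is zero in all degrees `≥ 1` -/
def Exact : Prop :=
  ∀ (q : ℕ), ∀ z ∈ Cw H (q + 1), bdy k A q z = 0 → ∃ w ∈ Cw H (q + 2), bdy k A (q + 1) w = z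

/-- linear operators `B` of degree `1` on the Hochschild chains with `B² = 0`, `b B + B b = 0`; only the values of `B`
on `Cw H` matter -/
structure Mixed where
  B : ∀ q : ℕ, Ch k A q → Ch k A (q + 1)
  lin : ∀ q, IsLinearMap k (B q)
  mem : ∀ q, ∀ z ∈ Cw H q, B q z ∈ Cw H (q + 1)
  sq : ∀ q, ∀ z ∈ Cw H q, B (q + 1) (B q z) = 0
  deg0 : ∀ z ∈ Cw H 0, bdy k A 0 (B 0 z) = 0
  anti : ∀ q, ∀ z ∈ Cw H (q + 1), bdy k A (q + 1) (B (q + 1) z) + B q (bdy k A q z) = 0

/-- every Hochschild cycle `z` extends to a cycle `z + u Z_1 + u² Z_2 + ...` of `(C[[u]], b + u B)` -/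
def Degen : Prop :=
  ∀ (M : Mixed H) (q : ℕ), ∀ z ∈ Cw H q, IsCyc k A q z →
    ∃ Z : ∀ i : ℕ, Ch k A (q + 2 * i), (∀ i, Z i ∈ Cw H (q + 2 * i)) ∧ Z 0 = z ∧
      ∀ i, bdy k A (q + 2 * i + 1) (Z (i + 1)) + M.B (q + 2 * i) (Z i) = 0

end words

section cat

variable {k G : Type} [Field k] [Group G] (D : RedGroup k G) (R : Type) [Ring R] [Algebra k R]

/-- `k`-linear endomorphisms of the direct sum of all `R ⊗ V` -/
def Am : Type := Module.End k (Ix D →₀ R)

/-- the algebra of these endomorphisms -/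
noncomputable instance instAmRing : Ring (Am D R) := Module.End.instRing

noncomputable instance instAmAlg : Algebra k (Am D R) := Module.End.instAlgebra k k (Ix D →₀ R)

/-- an element of `Am` as a linear map -/
def ev (f : Am D R) : (Ix D →₀ R) →ₗ[k] (Ix D →₀ R) := f

variable [MulSemiringAction G R] [SMulCommClass G k R]

/-- the morphisms `R ⊗ y → R ⊗ x`: the maps `f` given by the matrices `P` in `Hm R y.2 x.2` -/
noncomputable def Mo (x y : Ob D) : Submodule k (Am D R) :=
  Submodule.span k {f | ∃ P ∈ Hm R y.2 x.2, ∀ v : Ix D →₀ R,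
    ev D R f v = ∑ i, ∑ j, Finsupp.single (⟨x, i⟩ : Ix D) (P i j * v ⟨y, j⟩)}

variable {D R}

omit [MulSemiringAction G R] [SMulCommClass G k R] in
theorem em_ap {x y : Ob D} (P : Matrix (Fin x.1) (Fin y.1) R) (v : Ix D →₀ R) :
    ev D R (em x y P) v =
      ∑ i, ∑ j, Finsupp.single (⟨x, i⟩ : Ix D) (P i j * v ⟨y, j⟩) := by
  change (∑ i, ∑ j, Finsupp.lsingle (⟨x, i⟩ : Ix D) ∘ₗ LinearMap.mulLeft k (P i j) ∘ₗ
    Finsupp.lapply (⟨y, j⟩ : Ix D) : (Ix D →₀ R) →ₗ[k] (Ix D →₀ R)) v = _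
  rw [LinearMap.sum_apply]
  refine sum_congr rfl fun i _ => ?_
  rw [LinearMap.sum_apply]
  rfl

theorem Mo_eq (x y : Ob D) : Mo D R x y = hom R x y := by
  have e : {f : Am D R | ∃ P ∈ Hm R y.2 x.2, ∀ v : Ix D →₀ R,
      ev D R f v = ∑ i, ∑ j, Finsupp.single (⟨x, i⟩ : Ix D) (P i j * v ⟨y, j⟩)} =
      (em x y) '' (Hm R y.2 x.2 : Set (Matrix (Fin x.1) (Fin y.1) R)) := by
    ext f
    constructor
    · rintro ⟨P, hP, h⟩
      refine ⟨P, hP, ?_⟩
      apply LinearMap.ext
      intro v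
      exact (em_ap P v).trans (h v).symm
    · rintro ⟨P, hP, rfl⟩
      exact ⟨P, hP, em_ap P⟩
  unfold Mo hom
  rw [e]
  change Submodule.span k ((em x y) '' (Hm R y.2 x.2 : Set (Matrix (Fin x.1) (Fin y.1) R))) = _
  rw [← Submodule.map_span, Submodule.span_eq]

end cat

open CategoryTheory in
/-- the final theorem in terms of these definitions -/
theorem hd_stmt (k G R : Type) [Field k] [CharZero k] [Group G] [Ring R] [Algebra k R]
    [MulSemiringAction G R] [SMulCommClass G k R] (D : RedGroup k G) (hrat : RatR D R)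
    (hfg : (⊤ : Subalgebra k R).FG) (hcen : Module.Finite (Subalgebra.center k R) R)
    (hsm : ∃ n : ℕ, HasProjectiveDimensionLT (ModuleCat.of (Gam k R) (RBi R)) n)
    (hprop : PropR D R) : Exact (Mo D R) ∧ Degen (Mo D R) := by
  obtain ⟨h1, h2⟩ := hd_main at_all gb_all ca_all k G R D hrat hfg hcen hsm hprop
  have hH : Mo D R = (hom R : Ob D → Ob D → Submodule k (Am D R)) := by
    funext x y
    exact Mo_eq x y
  rw [hH]
  refine ⟨?_, ?_⟩
  · intro q z hz hb
    obtain ⟨w, hw⟩ := h1 q ⟨z, hz⟩ (Subtype.ext ((bdy_eq k (Am D R) q z).symm.trans hb))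
    exact ⟨w.1, w.2, (bdy_eq k (Am D R) (q + 1) w.1).trans (congrArg Subtype.val hw)⟩
  · intro M q z hz hc
    have hc' : Cycle D R q ⟨z, hz⟩ := by
      cases q with
      | zero => exact trivial
      | succ q =>
        apply Subtype.ext
        exact (bdy_eq k (Am D R) q z).symm.trans hc
    let B : ∀ q : ℕ, Cyc R D q →ₗ[k] Cyc R D (q + 1) := fun q =>
      { toFun := fun z => ⟨M.B q z.1, M.mem q z.1 z.2⟩
        map_add' := fun z z' => Subtype.ext ((M.lin q).map_add z.1 z'.1)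
        map_smul' := fun c z => Subtype.ext ((M.lin q).map_smul c z.1) }
    obtain ⟨Z, hZ0, hZ⟩ := h2 B (fun q z => Subtype.ext (M.sq q z.1 z.2))
      (fun z => Subtype.ext ((bdy_eq k (Am D R) 0 _).symm.trans (M.deg0 z.1 z.2)))
      (fun q z => Subtype.ext ((congr (congrArg HAdd.hAdd (bdy_eq k (Am D R) (q + 1)
        (M.B (q + 1) z.1))) (congrArg (M.B q) (bdy_eq k (Am D R) q z.1))).symm.trans
          (M.anti q z.1 z.2))) q ⟨z, hz⟩ hc'
    exact ⟨fun i => (Z i).1, fun i => (Z i).2, congrArg Subtype.val hZ0, fun i =>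
      (congrArg (· + M.B (q + 2 * i) (Z i).1) (bdy_eq k (Am D R) (q + 2 * i + 1) _)).trans
        (congrArg Subtype.val (hZ i))⟩

end Pool.Agent.Helper44.HD.Stmt
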